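import Mathlib

/-!
# Groups of 2 × 2 matrices with many elements of trace zero: matrices
-/

set_option autoImplicit false

namespace Pool.Agent.H502.TZ

open Matrix

variable {k : Type*} [Field k]

/-- scalar matrices -/
def IsSc (X : Matrix (Fin 2) (Fin 2) k) : Prop := ∃ c : k, X = c • 1

/-- the linearised theorem of Cayley and Hamilton -/
theorem ch_lin (X Y : Matrix (Fin 2) (Fin 2) k) :
    X * Y + Y * X = X.trace • Y + Y.trace • X + ((X * Y).trace - X.trace * Y.trace) • 1 := by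
  ext i j
  fin_cases i <;> fin_cases j <;>
    simp [Matrix.mul_apply, Fin.sum_univ_two, Matrix.trace_fin_two] <;> ring

theorem ch (X : Matrix (Fin 2) (Fin 2) k) : X * X = X.trace • X - X.det • 1 := by
  ext i j
  fin_cases i <;> fin_cases j <;>
    simp [Matrix.mul_apply, Fin.sum_univ_two, Matrix.trace_fin_two, Matrix.det_fin_two] <;> ring

/-- the centralizer of a matrix which is not scalar -/
theorem comm_span {X Y : Matrix (Fin 2) (Fin 2) k} (hY : ¬ IsSc Y) (h : X * Y = Y * X) :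
    ∃ a b : k, X = a • 1 + b • Y := by
  have e00 := congrFun (congrFun h 0) 0
  have e01 := congrFun (congrFun h 0) 1
  have e10 := congrFun (congrFun h 1) 0
  simp only [Matrix.mul_apply, Fin.sum_univ_two] at e00 e01 e10
  -- one of `Y 0 1`, `Y 1 0`, `Y 0 0 - Y 1 1` is not zero
  by_cases h01 : Y 0 1 = 0
  · by_cases h10 : Y 1 0 = 0
    · have hd : Y 0 0 - Y 1 1 ≠ 0 := by
        intro hd
        apply hY
        refine ⟨Y 0 0, ?_⟩
        ext i j
        fin_cases i <;> fin_cases j <;> simp [h01, h10]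
        linear_combination -hd
      have hX01 : X 0 1 = 0 := by
        have : X 0 1 * (Y 0 0 - Y 1 1) = 0 := by rw [h01] at e01; linear_combination -e01
        exact (mul_eq_zero.1 this).resolve_right hd
      have hX10 : X 1 0 = 0 := by
        have : X 1 0 * (Y 0 0 - Y 1 1) = 0 := by rw [h10] at e10; linear_combination e10
        exact (mul_eq_zero.1 this).resolve_right hd
      refine ⟨X 0 0 - (X 0 0 - X 1 1) / (Y 0 0 - Y 1 1) * Y 0 0, (X 0 0 - X 1 1) / (Y 0 0 - Y 1 1), ?_⟩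
      ext i j
      fin_cases i <;> fin_cases j <;> simp [h01, h10, hX01, hX10]
      field_simp
      ring
    · refine ⟨X 0 0 - X 1 0 / Y 1 0 * Y 0 0, X 1 0 / Y 1 0, ?_⟩
      ext i j
      fin_cases i <;> fin_cases j <;> simp [h01]
      · rw [h01] at e00
        have : X 0 1 * Y 1 0 = 0 := by linear_combination e00
        exact (mul_eq_zero.1 this).resolve_right h10
      · field_simp
      · field_simp
        linear_combination e10
  · refine ⟨X 0 0 - X 0 1 / Y 0 1 * Y 0 0, X 0 1 / Y 0 1, ?_⟩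
    ext i j
    fin_cases i <;> fin_cases j <;> simp
    · field_simp
    · field_simp
      linear_combination -e00
    · field_simp
      linear_combination -e01

variable {G : Type*} [Group G] (ρ : G →* GL (Fin 2) k)

/-- the matrix of an element -/
def A (g : G) : Matrix (Fin 2) (Fin 2) k := (ρ g).val

theorem A_mul (g h : G) : A ρ (g * h) = A ρ g * A ρ h := by
  unfold A; rw [map_mul, Units.val_mul]

theorem A_one : A ρ (1 : G) = 1 := by
  unfold A; rw [map_one, Units.val_one]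

theorem A_inv_mul (g : G) : A ρ g⁻¹ * A ρ g = 1 := by
  rw [← A_mul, inv_mul_cancel, A_one]

theorem A_mul_inv (g : G) : A ρ g * A ρ g⁻¹ = 1 := by
  rw [← A_mul, mul_inv_cancel, A_one]

theorem A_ne (g : G) : A ρ g ≠ 0 := by
  intro h
  have := A_mul_inv ρ g
  rw [h, zero_mul] at this
  exact zero_ne_one this

theorem A_det (g : G) : (A ρ g).det ≠ 0 := by
  intro h
  have h1 := congrArg Matrix.det (A_mul_inv ρ g)
  rw [Matrix.det_mul, h, zero_mul, Matrix.det_one] at h1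
  exact zero_ne_one h1

/-- the elements with a scalar matrix -/
def Sc : Subgroup G where
  carrier := {g | IsSc (A ρ g)}
  one_mem' := ⟨1, by rw [A_one, one_smul]⟩
  mul_mem' := by
    rintro x y ⟨c, hc⟩ ⟨d, hd⟩
    refine ⟨c * d, ?_⟩
    rw [A_mul, hc, hd, smul_mul_smul_comm, mul_one]
  inv_mem' := by
    rintro x ⟨c, hc⟩
    have h1 := A_mul_inv ρ x
    rw [hc, smul_mul_assoc, one_mul] at h1
    have hc0 : c ≠ 0 := by
      rintro rfl
      rw [zero_smul] at h1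
      exact zero_ne_one h1
    refine ⟨c⁻¹, ?_⟩
    calc A ρ x⁻¹ = c⁻¹ • (c • A ρ x⁻¹) := by rw [smul_smul, inv_mul_cancel₀ hc0, one_smul]
      _ = _ := by rw [h1]

theorem mem_Sc {g : G} : g ∈ Sc ρ ↔ IsSc (A ρ g) := Iff.rfl

/-- the elements which commute with a given matrix -/
def Cm (Y : Matrix (Fin 2) (Fin 2) k) : Subgroup G where
  carrier := {x | A ρ x * Y = Y * A ρ x}
  one_mem' := by
    show A ρ 1 * Y = Y * A ρ 1
    rw [A_one, one_mul, mul_one]
  mul_mem' := by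
    intro x y hx hy
    have hx' : A ρ x * Y = Y * A ρ x := hx
    have hy' : A ρ y * Y = Y * A ρ y := hy
    show A ρ (x * y) * Y = Y * A ρ (x * y)
    rw [A_mul, mul_assoc, hy', ← mul_assoc, hx', mul_assoc]
  inv_mem' := by
    intro x hx
    have hx' : A ρ x * Y = Y * A ρ x := hx
    show A ρ x⁻¹ * Y = Y * A ρ x⁻¹
    calc A ρ x⁻¹ * Y = A ρ x⁻¹ * Y * (A ρ x * A ρ x⁻¹) := by rw [A_mul_inv, mul_one]
      _ = A ρ x⁻¹ * (Y * A ρ x) * A ρ x⁻¹ := by simp only [mul_assoc]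
      _ = A ρ x⁻¹ * (A ρ x * Y) * A ρ x⁻¹ := by rw [hx']
      _ = (A ρ x⁻¹ * A ρ x) * Y * A ρ x⁻¹ := by simp only [mul_assoc]
      _ = _ := by rw [A_inv_mul, one_mul]

/-- the elements which commute with `g` up to scalars -/
abbrev Cg (g : G) : Subgroup G := Cm ρ (A ρ g)

theorem mem_Cg {x g : G} : x ∈ Cg ρ g ↔ A ρ x * A ρ g = A ρ g * A ρ x := Iff.rfl

theorem self_mem (g : G) : g ∈ Cg ρ g := rfl

theorem Cg_symm {x g : G} (h : x ∈ Cg ρ g) : g ∈ Cg ρ x := ((mem_Cg ρ).1 h).symm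

theorem Sc_le (Y : Matrix (Fin 2) (Fin 2) k) : Sc ρ ≤ Cm ρ Y := by
  rintro x ⟨c, hc⟩
  show A ρ x * Y = Y * A ρ x
  rw [hc, smul_mul_assoc, mul_smul_comm, one_mul, mul_one]

/-- trace zero -/
def Tz : Set G := {g | (A ρ g).trace = 0}

theorem mem_Tz {g : G} : g ∈ Tz ρ ↔ (A ρ g).trace = 0 := Iff.rfl

theorem trace_smul_one (c : k) : (c • (1 : Matrix (Fin 2) (Fin 2) k)).trace = 2 * c := by
  rw [Matrix.trace_smul, Matrix.trace_fin_two, smul_eq_mul]
  simp
  ring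

theorem not_Sc_of_Tz (h2 : (2 : k) ≠ 0) {g : G} (hg : g ∈ Tz ρ) : g ∉ Sc ρ := by
  rintro ⟨c, hc⟩
  rw [mem_Tz, hc, trace_smul_one] at hg
  have h0 : c = 0 := (mul_eq_zero.1 hg).resolve_left h2
  rw [h0, zero_smul] at hc
  exact A_ne ρ g hc

/-- the elements `x` such that `x` and `x g` have trace zero -/
def Pg (g : G) : Set G := {x | x ∈ Tz ρ ∧ x * g ∈ Tz ρ}

theorem mem_Pg {x g : G} : x ∈ Pg ρ g ↔ x ∈ Tz ρ ∧ x * g ∈ Tz ρ := Iff.rfl

/-- for `x ∈ P(g)`: `x g + g x = tr(g) x` -/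
theorem Pg_rel {x g : G} (hx : x ∈ Pg ρ g) :
    A ρ x * A ρ g + A ρ g * A ρ x = (A ρ g).trace • A ρ x := by
  obtain ⟨h1, h2⟩ := hx
  rw [mem_Tz] at h1 h2
  rw [A_mul] at h2
  rw [ch_lin, h1, h2]
  simp

theorem Pg_of_rel {x g : G} (hg : g ∉ Sc ρ)
    (h : A ρ x * A ρ g + A ρ g * A ρ x = (A ρ g).trace • A ρ x) : x ∈ Pg ρ g := by
  rw [ch_lin] at h
  have h1 : (A ρ x).trace • A ρ g +
      ((A ρ x * A ρ g).trace - (A ρ x).trace * (A ρ g).trace) • (1 : Matrix (Fin 2) (Fin 2) k) = 0 := by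
    have : (A ρ x).trace • A ρ g +
      ((A ρ x * A ρ g).trace - (A ρ x).trace * (A ρ g).trace) • (1 : Matrix (Fin 2) (Fin 2) k) =
      ((A ρ x).trace • A ρ g + (A ρ g).trace • A ρ x +
      ((A ρ x * A ρ g).trace - (A ρ x).trace * (A ρ g).trace) • (1 : Matrix (Fin 2) (Fin 2) k)) -
      (A ρ g).trace • A ρ x := by abel
    rw [this, h, sub_self]
  have h2 : (A ρ x).trace = 0 := by
    by_contra hne
    apply hg
    refine ⟨-((A ρ x).trace)⁻¹ * ((A ρ x * A ρ g).trace - (A ρ x).trace * (A ρ g).trace), ?_⟩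
    have h3 : (A ρ x).trace • A ρ g =
        -(((A ρ x * A ρ g).trace - (A ρ x).trace * (A ρ g).trace) • (1 : Matrix (Fin 2) (Fin 2) k)) :=
      eq_neg_of_add_eq_zero_left h1
    calc A ρ g = ((A ρ x).trace)⁻¹ • ((A ρ x).trace • A ρ g) := by
          rw [smul_smul, inv_mul_cancel₀ hne, one_smul]
      _ = _ := by rw [h3, smul_neg, smul_smul, neg_mul, neg_smul]
  refine ⟨h2, ?_⟩
  rw [h2, zero_smul, zero_add, zero_mul, sub_zero] at h1
  rw [mem_Tz, A_mul]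
  by_contra hne
  have h3 := congrFun (congrFun h1 0) 0
  simp at h3
  exact hne h3

/-- products -/
theorem Pg_mul {s h g : G} (hg : g ∉ Sc ρ) (hs : s ∈ Pg ρ g) (hh : h ∈ Cg ρ g) :
    s * h ∈ Pg ρ g := by
  apply Pg_of_rel ρ hg
  have h1 := Pg_rel ρ hs
  have h2 := (mem_Cg ρ).1 hh
  rw [A_mul]
  calc A ρ s * A ρ h * A ρ g + A ρ g * (A ρ s * A ρ h) =
      A ρ s * (A ρ h * A ρ g) + A ρ g * A ρ s * A ρ h := by simp only [mul_assoc]
    _ = (A ρ s * A ρ g + A ρ g * A ρ s) * A ρ h := by rw [h2, add_mul]; simp only [mul_assoc]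
    _ = _ := by rw [h1, smul_mul_assoc]

theorem Pg_inv_mul {s x g : G} (hs : s ∈ Pg ρ g) (hx : x ∈ Pg ρ g) : s⁻¹ * x ∈ Cg ρ g := by
  have h1 := Pg_rel ρ hs
  have h2 := Pg_rel ρ hx
  rw [mem_Cg, A_mul]
  -- `x g = tr(g) x - g x`, `s⁻¹ (tr g - g) = g s⁻¹`
  have e1 : A ρ x * A ρ g = ((A ρ g).trace • 1 - A ρ g) * A ρ x := by
    rw [sub_mul, smul_mul_assoc, one_mul, ← h2]; abel
  have e2 : A ρ s⁻¹ * ((A ρ g).trace • 1 - A ρ g) = A ρ g * A ρ s⁻¹ := by
    have e3 : ((A ρ g).trace • 1 - A ρ g) * A ρ s = A ρ s * A ρ g := by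
      rw [sub_mul, smul_mul_assoc, one_mul, ← h1]; abel
    calc A ρ s⁻¹ * ((A ρ g).trace • 1 - A ρ g) =
        A ρ s⁻¹ * (((A ρ g).trace • 1 - A ρ g) * A ρ s) * A ρ s⁻¹ := by
          rw [mul_assoc, mul_assoc, A_mul_inv, mul_one]
      _ = A ρ s⁻¹ * A ρ s * A ρ g * A ρ s⁻¹ := by rw [e3]; simp only [mul_assoc]
      _ = _ := by rw [A_inv_mul, one_mul]
  rw [mul_assoc, e1, ← mul_assoc, e2, mul_assoc]

/-- `P(g)` and `C(g)` are disjoint -/
theorem Pg_not_Cg (h2 : (2 : k) ≠ 0) {x g : G} (hg : g ∉ Sc ρ) (hx : x ∈ Pg ρ g) : x ∉ Cg ρ g := by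
  intro hc
  have h1 := Pg_rel ρ hx
  have h3 := (mem_Cg ρ).1 hc
  rw [h3, ← two_smul k, ← smul_mul_assoc] at h1
  -- `2 g x = tr(g) x`
  have h4 : (2 : k) • A ρ g = (A ρ g).trace • (1 : Matrix (Fin 2) (Fin 2) k) := by
    calc (2 : k) • A ρ g = (2 : k) • A ρ g * (A ρ x * A ρ x⁻¹) := by rw [A_mul_inv, mul_one]
      _ = ((2 : k) • A ρ g * A ρ x) * A ρ x⁻¹ := by rw [mul_assoc]
      _ = (A ρ g).trace • (A ρ x * A ρ x⁻¹) := by rw [h1, smul_mul_assoc]
      _ = _ := by rw [A_mul_inv]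
  apply hg
  refine ⟨2⁻¹ * (A ρ g).trace, ?_⟩
  rw [← smul_smul, ← h4, smul_smul, inv_mul_cancel₀ h2, one_smul]

/-- two commuting elements of trace zero differ by a scalar -/
theorem Tz_comm (h2 : (2 : k) ≠ 0) {x y : G} (hx : x ∈ Tz ρ) (hy : y ∈ Tz ρ) (h : x ∈ Cg ρ y) :
    y⁻¹ * x ∈ Sc ρ := by
  obtain ⟨a, b, hab⟩ := comm_span (not_Sc_of_Tz ρ h2 hy) h
  have ha : a = 0 := by
    have h3 := congrArg Matrix.trace hab
    rw [Matrix.trace_add, trace_smul_one, Matrix.trace_smul, (mem_Tz ρ).1 hx, (mem_Tz ρ).1 hy,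
      smul_zero, add_zero] at h3
    exact (mul_eq_zero.1 h3.symm).resolve_left h2
  refine ⟨b, ?_⟩
  rw [A_mul, hab, ha, zero_smul, zero_add, mul_smul_comm, A_inv_mul]

/-- transitivity: if `x` and `y` commute with `g`, `g` not scalar, they commute -/
theorem comm_trans {x y g : G} (hg : g ∉ Sc ρ) (hx : x ∈ Cg ρ g) (hy : y ∈ Cg ρ g) : x ∈ Cg ρ y := by
  obtain ⟨a, b, hab⟩ := comm_span hg hx
  have hy' := (mem_Cg ρ).1 hy
  rw [mem_Cg, hab, add_mul, mul_add, smul_mul_assoc, one_mul, mul_smul_comm, mul_one,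
    smul_mul_assoc, mul_smul_comm, hy']

end Pool.Agent.H502.TZ
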