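import Pool.Agent.H502.TZ.B1

/-!
# Groups of 2 × 2 matrices with many elements of trace zero: counting
-/

set_option autoImplicit false

namespace Pool.Agent.H502.TZ

open Matrix

variable {k : Type*} [Field k] {G : Type*} [Group G] (ρ : G →* GL (Fin 2) k)

section count

variable [Fintype G]

open Classical in
/-- indicator function -/
noncomputable def ind (S : Set G) (x : G) : ℕ := if x ∈ S then 1 else 0

omit [Group G] [Fintype G] in
theorem ind_of_mem {S : Set G} {x : G} (h : x ∈ S) : ind S x = 1 := by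
  unfold ind; rw [if_pos h]

omit [Group G] [Fintype G] in
theorem ind_of_not_mem {S : Set G} {x : G} (h : x ∉ S) : ind S x = 0 := by
  unfold ind; rw [if_neg h]

omit [Group G] in
theorem sum_ind (S : Set G) : ∑ x, ind S x = Nat.card S := by
  classical
  unfold ind
  rw [Finset.sum_boole, Nat.cast_id, Nat.card_eq_fintype_card, Fintype.card_subtype]

/-- `Σ |P(g)| = |Z|²` -/
theorem sum_Pg : ∑ g, Nat.card (Pg ρ g) = Nat.card (Tz ρ) * Nat.card (Tz ρ) := by
  classical
  have h1 : ∀ g x : G, ind (Pg ρ g) x = ind (Tz ρ) x * ind (Tz ρ) (x * g) := by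
    intro g x
    by_cases hx : x ∈ Tz ρ
    · by_cases hxg : x * g ∈ Tz ρ
      · rw [ind_of_mem hx, ind_of_mem hxg, ind_of_mem (show x ∈ Pg ρ g from ⟨hx, hxg⟩)]
      · rw [ind_of_mem hx, ind_of_not_mem hxg, ind_of_not_mem (fun h => hxg h.2)]
    · rw [ind_of_not_mem hx, ind_of_not_mem (fun h => hx h.1), zero_mul]
  calc ∑ g, Nat.card (Pg ρ g) = ∑ g, ∑ x, ind (Tz ρ) x * ind (Tz ρ) (x * g) := by
        apply Finset.sum_congr rfl
        intro g _
        rw [← sum_ind]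
        exact Finset.sum_congr rfl (fun x _ => h1 g x)
    _ = ∑ x, ∑ g, ind (Tz ρ) x * ind (Tz ρ) (x * g) := Finset.sum_comm
    _ = ∑ x, ind (Tz ρ) x * Nat.card (Tz ρ) := by
        apply Finset.sum_congr rfl
        intro x _
        rw [← Finset.mul_sum, ← sum_ind (Tz ρ)]
        congr 1
        exact Fintype.sum_equiv (Equiv.mulLeft x) _ _ (fun g => rfl)
    _ = _ := by rw [← Finset.sum_mul, sum_ind]

theorem card_inter_le (h2 : (2 : k) ≠ 0) {x : G} (hx : x ∉ Sc ρ) :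
    Nat.card ((Tz ρ ∩ (Cg ρ x : Set G) : Set G)) ≤ Nat.card (Sc ρ) := by
  rcases (Tz ρ ∩ (Cg ρ x : Set G) : Set G).eq_empty_or_nonempty with h | ⟨y, hy⟩
  · rw [h]; simp
  · have hm : ∀ w : (Tz ρ ∩ (Cg ρ x : Set G) : Set G), y⁻¹ * w.1 ∈ Sc ρ := fun w =>
      Tz_comm ρ h2 w.2.1 hy.1 (comm_trans ρ hx w.2.2 hy.2)
    exact Nat.card_le_card_of_injective (fun w => (⟨y⁻¹ * w.1, hm w⟩ : Sc ρ)) (by
      intro a b hab
      have := congrArg Subtype.val hab
      exact Subtype.ext (mul_left_cancel this))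

theorem sum_Cg (h2 : (2 : k) ≠ 0) :
    ∑ g, ind (Tz ρ) g * Nat.card (Cg ρ g) + Nat.card (Sc ρ) * Nat.card (Sc ρ) ≤
      Nat.card (Sc ρ) * Nat.card (Tz ρ) + Nat.card (Sc ρ) * Nat.card G := by
  classical
  have h1 : ∑ g, ind (Tz ρ) g * Nat.card (Cg ρ g) =
      ∑ x, Nat.card ((Tz ρ ∩ (Cg ρ x : Set G) : Set G)) := by
    calc ∑ g, ind (Tz ρ) g * Nat.card (Cg ρ g) =
        ∑ g, ∑ x, ind (Tz ρ) g * ind (Cg ρ g : Set G) x := by
          apply Finset.sum_congr rfl
          intro g _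
          rw [← Finset.mul_sum]
          congr 1
          exact (sum_ind (Cg ρ g : Set G)).symm
      _ = ∑ x, ∑ g, ind (Tz ρ) g * ind (Cg ρ g : Set G) x := Finset.sum_comm
      _ = _ := by
          apply Finset.sum_congr rfl
          intro x _
          rw [← sum_ind]
          apply Finset.sum_congr rfl
          intro g _
          by_cases hg : g ∈ Tz ρ
          · by_cases hx : x ∈ Cg ρ g
            · rw [ind_of_mem hg, ind_of_mem (show x ∈ (Cg ρ g : Set G) from hx), ind_of_mem]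
              exact ⟨hg, Cg_symm ρ hx⟩
            · rw [ind_of_mem hg, ind_of_not_mem (show x ∉ (Cg ρ g : Set G) from hx), ind_of_not_mem]
              exact fun h => hx (Cg_symm ρ h.2)
          · rw [ind_of_not_mem hg, zero_mul, ind_of_not_mem]
            exact fun h => hg h.1
  have h3 : ∀ x : G, Nat.card ((Tz ρ ∩ (Cg ρ x : Set G) : Set G)) + ind (Sc ρ : Set G) x * Nat.card (Sc ρ)
      ≤ ind (Sc ρ : Set G) x * Nat.card (Tz ρ) + Nat.card (Sc ρ) := by
    intro x
    by_cases hx : x ∈ Sc ρ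
    · rw [ind_of_mem (show x ∈ (Sc ρ : Set G) from hx), one_mul, one_mul]
      apply Nat.add_le_add_right
      exact Nat.card_mono (Set.toFinite _) Set.inter_subset_left
    · rw [ind_of_not_mem (show x ∉ (Sc ρ : Set G) from hx), zero_mul, zero_mul, add_zero, zero_add]
      exact card_inter_le ρ h2 hx
  have h4 := Finset.sum_le_sum (s := Finset.univ) (fun x _ => h3 x)
  rw [Finset.sum_add_distrib, Finset.sum_add_distrib, ← Finset.sum_mul, ← Finset.sum_mul,
    sum_ind, Finset.sum_const, Finset.card_univ, smul_eq_mul, ← Nat.card_eq_fintype_card] at h4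
  rw [h1]
  have h5 : Nat.card ((Sc ρ : Set G)) = Nat.card (Sc ρ) := rfl
  rw [h5] at h4
  calc _ ≤ _ := h4
    _ = _ := by ring

theorem card_Pg_le {g : G} (hg : g ∉ Sc ρ) : Nat.card (Pg ρ g) ≤ Nat.card (Cg ρ g) := by
  rcases (Pg ρ g).eq_empty_or_nonempty with h | ⟨s, hs⟩
  · rw [h]; simp
  · exact Nat.card_le_card_of_injective (fun x => (⟨s⁻¹ * x.1, Pg_inv_mul ρ hs x.2⟩ : Cg ρ g)) (by
      intro a b hab
      have := congrArg Subtype.val hab
      exact Subtype.ext (mul_left_cancel this))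

theorem card_Pg_eq {g : G} (hg : g ∉ Sc ρ) (hne : (Pg ρ g).Nonempty) :
    Nat.card (Pg ρ g) = Nat.card (Cg ρ g) := by
  apply le_antisymm (card_Pg_le ρ hg)
  obtain ⟨s, hs⟩ := hne
  exact Nat.card_le_card_of_injective (fun x => (⟨s * x.1, Pg_mul ρ hg hs x.2⟩ : Pg ρ g)) (by
      intro a b hab
      have := congrArg Subtype.val hab
      exact Subtype.ext (mul_left_cancel this))

theorem card_compl (h2 : (2 : k) ≠ 0) :
    ∑ g, ind ((Sc ρ : Set G) ∪ Tz ρ)ᶜ g + Nat.card (Sc ρ) + Nat.card (Tz ρ) = Nat.card G := by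
  classical
  have h1 : ∀ g : G, ind ((Sc ρ : Set G) ∪ Tz ρ)ᶜ g + ind (Sc ρ : Set G) g + ind (Tz ρ) g = 1 := by
    intro g
    by_cases hs : g ∈ Sc ρ
    · have ht : g ∉ Tz ρ := fun h => not_Sc_of_Tz ρ h2 h hs
      rw [ind_of_mem (show g ∈ (Sc ρ : Set G) from hs), ind_of_not_mem ht, ind_of_not_mem]
      exact fun h => h (Or.inl hs)
    · by_cases ht : g ∈ Tz ρ
      · rw [ind_of_not_mem (show g ∉ (Sc ρ : Set G) from hs), ind_of_mem ht, ind_of_not_mem]
        exact fun h => h (Or.inr ht)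
      · rw [ind_of_not_mem (show g ∉ (Sc ρ : Set G) from hs), ind_of_not_mem ht, ind_of_mem]
        intro h
        rcases h with h | h
        · exact hs h
        · exact ht h
  have h3 := Finset.sum_congr (rfl : (Finset.univ : Finset G) = Finset.univ) (fun g _ => h1 g)
  rw [Finset.sum_add_distrib, Finset.sum_add_distrib, sum_ind (Sc ρ : Set G), sum_ind (Tz ρ),
    Finset.sum_const, Finset.card_univ, smul_eq_mul, mul_one, ← Nat.card_eq_fintype_card] at h3
  exact h3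

/-- the main inequality -/
theorem star (h2 : (2 : k) ≠ 0) (M : ℕ)
    (hM : ∀ g : G, g ∉ Sc ρ → g ∉ Tz ρ → Nat.card (Pg ρ g) ≤ M) :
    Nat.card (Tz ρ) * Nat.card (Tz ρ) + Nat.card (Sc ρ) * Nat.card (Sc ρ) +
        M * Nat.card (Sc ρ) + M * Nat.card (Tz ρ) ≤
      2 * Nat.card (Sc ρ) * Nat.card (Tz ρ) + Nat.card (Sc ρ) * Nat.card G + M * Nat.card G := by
  classical
  have h1 : ∀ g : G, Nat.card (Pg ρ g) ≤ ind (Sc ρ : Set G) g * Nat.card (Tz ρ) +
      ind (Tz ρ) g * Nat.card (Cg ρ g) + ind ((Sc ρ : Set G) ∪ Tz ρ)ᶜ g * M := by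
    intro g
    by_cases hs : g ∈ Sc ρ
    · rw [ind_of_mem (show g ∈ (Sc ρ : Set G) from hs), one_mul]
      have : Nat.card (Pg ρ g) ≤ Nat.card (Tz ρ) :=
        Nat.card_mono (Set.toFinite _) (fun x hx => hx.1)
      omega
    · by_cases ht : g ∈ Tz ρ
      · rw [ind_of_mem ht, one_mul]
        have := card_Pg_le ρ hs
        omega
      · rw [ind_of_mem (show g ∈ ((Sc ρ : Set G) ∪ Tz ρ)ᶜ from fun h => h.elim hs ht), one_mul]
        have := hM g hs ht
        omega
  have h3 := Finset.sum_le_sum (s := Finset.univ) (fun x _ => h1 x)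
  rw [sum_Pg, Finset.sum_add_distrib, Finset.sum_add_distrib, ← Finset.sum_mul,
    sum_ind (Sc ρ : Set G), ← Finset.sum_mul] at h3
  have h4 := sum_Cg ρ h2
  have h5 := card_compl ρ h2
  have h6 : Nat.card ((Sc ρ : Set G)) = Nat.card (Sc ρ) := rfl
  rw [h6] at h3
  have h7 : (∑ g, ind ((Sc ρ : Set G) ∪ Tz ρ)ᶜ g) * M + Nat.card (Sc ρ) * M + Nat.card (Tz ρ) * M =
      Nat.card G * M := by
    rw [← add_mul, ← add_mul, h5]
  nlinarith

/-- the inequality when `P(g)` is empty or of order at most `2z` -/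
theorem star_two (h2 : (2 : k) ≠ 0) (M : ℕ) (hM : ∀ g : G, g ∉ Sc ρ → Nat.card (Pg ρ g) ≤ M)
    (hE : ∀ g : G, g ∉ Sc ρ → g ∉ Tz ρ → Nat.card (Pg ρ g) = 0) :
    Nat.card (Tz ρ) * Nat.card (Tz ρ) ≤ (Nat.card (Sc ρ) + M) * Nat.card (Tz ρ) := by
  classical
  have h1 : ∀ g : G, Nat.card (Pg ρ g) ≤ ind (Sc ρ : Set G) g * Nat.card (Tz ρ) +
      ind (Tz ρ) g * M := by
    intro g
    by_cases hs : g ∈ Sc ρ
    · rw [ind_of_mem (show g ∈ (Sc ρ : Set G) from hs), one_mul]
      have : Nat.card (Pg ρ g) ≤ Nat.card (Tz ρ) :=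
        Nat.card_mono (Set.toFinite _) (fun x hx => hx.1)
      omega
    · by_cases ht : g ∈ Tz ρ
      · rw [ind_of_mem ht, one_mul]
        have := hM g hs
        omega
      · rw [hE g hs ht]
        exact Nat.zero_le _
  have h3 := Finset.sum_le_sum (s := Finset.univ) (fun x _ => h1 x)
  rw [sum_Pg, Finset.sum_add_distrib, ← Finset.sum_mul,
    sum_ind (Sc ρ : Set G), ← Finset.sum_mul, sum_ind (Tz ρ)] at h3
  have h6 : Nat.card ((Sc ρ : Set G)) = Nat.card (Sc ρ) := rfl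
  rw [h6] at h3
  calc _ ≤ _ := h3
    _ = _ := by ring

end count

end Pool.Agent.H502.TZ
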