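import Pool.Agent.H502.TZ.B2

/-!
# Groups of 2 × 2 matrices with many elements of trace zero: subgroups
-/

set_option autoImplicit false

namespace Pool.Agent.H502.TZ

open Matrix

variable {k : Type*} [Field k] {G : Type*} [Group G] (ρ : G →* GL (Fin 2) k)

/-- twice the part of trace zero of the matrix of an element -/
def L (g : G) : Matrix (Fin 2) (Fin 2) k := (2 : k) • A ρ g - (A ρ g).trace • 1

theorem L_trace (g : G) : (L ρ g).trace = 0 := by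
  unfold L
  rw [Matrix.trace_sub, Matrix.trace_smul, trace_smul_one, smul_eq_mul, sub_self]

theorem L_not_sc (h2 : (2 : k) ≠ 0) {g : G} (hg : g ∉ Sc ρ) : ¬ IsSc (L ρ g) := by
  rintro ⟨c, hc⟩
  apply hg
  refine ⟨2⁻¹ * (c + (A ρ g).trace), ?_⟩
  unfold L at hc
  have h1 : (2 : k) • A ρ g = (c + (A ρ g).trace) • (1 : Matrix (Fin 2) (Fin 2) k) := by
    rw [add_smul, ← hc]; abel
  rw [← smul_smul, ← h1, smul_smul, inv_mul_cancel₀ h2, one_smul]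

theorem mul_L (X : Matrix (Fin 2) (Fin 2) k) (g : G) :
    X * L ρ g = (2 : k) • (X * A ρ g) - (A ρ g).trace • X := by
  unfold L
  rw [mul_sub, mul_smul_comm, mul_smul_comm, mul_one]

theorem L_mul (X : Matrix (Fin 2) (Fin 2) k) (g : G) :
    L ρ g * X = (2 : k) • (A ρ g * X) - (A ρ g).trace • X := by
  unfold L
  rw [sub_mul, smul_mul_assoc, smul_mul_assoc, one_mul]

theorem mem_Cg_iff_L (h2 : (2 : k) ≠ 0) {x g : G} :
    x ∈ Cg ρ g ↔ A ρ x * L ρ g = L ρ g * A ρ x := by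
  rw [mem_Cg, mul_L, L_mul, sub_left_inj]
  constructor
  · intro h; rw [h]
  · intro h
    have := congrArg (fun t => (2 : k)⁻¹ • t) h
    simpa [smul_smul, inv_mul_cancel₀ h2] using this

theorem mem_Pg_iff_L (h2 : (2 : k) ≠ 0) {x g : G} (hg : g ∉ Sc ρ) :
    x ∈ Pg ρ g ↔ A ρ x * L ρ g = -(L ρ g * A ρ x) := by
  rw [mul_L, L_mul]
  constructor
  · intro h
    have h1 := Pg_rel ρ h
    have h3 : (2 : k) • (A ρ x * A ρ g) + (2 : k) • (A ρ g * A ρ x) = (2 : k) • ((A ρ g).trace • A ρ x) := by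
      rw [← smul_add, h1]
    rw [eq_neg_iff_add_eq_zero]
    calc _ = (2 : k) • (A ρ x * A ρ g) + (2 : k) • (A ρ g * A ρ x) - (2 : k) • ((A ρ g).trace • A ρ x) := by
          rw [two_smul k ((A ρ g).trace • A ρ x)]; abel
      _ = 0 := by rw [h3, sub_self]
  · intro h
    apply Pg_of_rel ρ hg
    rw [eq_neg_iff_add_eq_zero] at h
    have h3 : (2 : k) • (A ρ x * A ρ g + A ρ g * A ρ x - (A ρ g).trace • A ρ x) = 0 := by
      rw [← h, smul_sub, smul_add, two_smul k ((A ρ g).trace • A ρ x)]; abel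
    rcases smul_eq_zero.1 h3 with h4 | h4
    · exact absurd h4 h2
    · exact sub_eq_zero.1 h4

/-- the elements which commute or anticommute with `Y` -/
def Nm (Y : Matrix (Fin 2) (Fin 2) k) : Subgroup G where
  carrier := {x | A ρ x * Y = Y * A ρ x ∨ A ρ x * Y = -(Y * A ρ x)}
  one_mem' := by
    left
    rw [A_one, one_mul, mul_one]
  mul_mem' := by
    intro x y hx hy
    show A ρ (x * y) * Y = Y * A ρ (x * y) ∨ A ρ (x * y) * Y = -(Y * A ρ (x * y))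
    rw [A_mul]
    rcases hx with hx | hx <;> rcases hy with hy | hy
    · left; rw [mul_assoc, hy, ← mul_assoc, hx, mul_assoc]
    · right; rw [mul_assoc, hy, mul_neg, ← mul_assoc, hx, mul_assoc]
    · right; rw [mul_assoc, hy, ← mul_assoc, hx, neg_mul, mul_assoc]
    · left; rw [mul_assoc, hy, mul_neg, ← mul_assoc, hx, neg_mul, neg_neg, mul_assoc]
  inv_mem' := by
    intro x hx
    show A ρ x⁻¹ * Y = Y * A ρ x⁻¹ ∨ A ρ x⁻¹ * Y = -(Y * A ρ x⁻¹)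
    have e : A ρ x⁻¹ * Y = A ρ x⁻¹ * (Y * A ρ x) * A ρ x⁻¹ := by
      calc A ρ x⁻¹ * Y = A ρ x⁻¹ * Y * (A ρ x * A ρ x⁻¹) := by rw [A_mul_inv, mul_one]
        _ = _ := by simp only [mul_assoc]
    rcases hx with hx | hx
    · left
      rw [e, ← hx, ← mul_assoc, A_inv_mul, one_mul]
    · right
      have hx' : Y * A ρ x = -(A ρ x * Y) := by rw [hx, neg_neg]
      rw [e, hx', mul_neg, neg_mul, ← mul_assoc, A_inv_mul, one_mul]

theorem mem_Nm {Y : Matrix (Fin 2) (Fin 2) k} {x : G} :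
    x ∈ Nm ρ Y ↔ A ρ x * Y = Y * A ρ x ∨ A ρ x * Y = -(Y * A ρ x) := Iff.rfl

/-- the elements which normalise the line of `Y` -/
def Bm (Y : Matrix (Fin 2) (Fin 2) k) : Subgroup G where
  carrier := {x | ∃ c : k, c ≠ 0 ∧ A ρ x * Y = c • (Y * A ρ x)}
  one_mem' := ⟨1, one_ne_zero, by rw [A_one, one_mul, mul_one, one_smul]⟩
  mul_mem' := by
    rintro x y ⟨c, hc0, hc⟩ ⟨d, hd0, hd⟩
    refine ⟨d * c, mul_ne_zero hd0 hc0, ?_⟩
    rw [A_mul, mul_assoc, hd, mul_smul_comm, ← mul_assoc, hc, smul_mul_assoc, smul_smul, mul_assoc]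
  inv_mem' := by
    rintro x ⟨c, hc0, hc⟩
    refine ⟨c⁻¹, inv_ne_zero hc0, ?_⟩
    have e : Y * A ρ x = c⁻¹ • (A ρ x * Y) := by
      rw [hc, smul_smul, inv_mul_cancel₀ hc0, one_smul]
    calc A ρ x⁻¹ * Y = A ρ x⁻¹ * (Y * A ρ x) * A ρ x⁻¹ := by
          rw [← mul_assoc, mul_assoc, A_mul_inv, mul_one]
      _ = c⁻¹ • (A ρ x⁻¹ * A ρ x * Y * A ρ x⁻¹) := by
          rw [e, mul_smul_comm, smul_mul_assoc]; simp only [mul_assoc]
      _ = _ := by rw [A_inv_mul, one_mul]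

theorem mem_Bm {Y : Matrix (Fin 2) (Fin 2) k} {x : G} :
    x ∈ Bm ρ Y ↔ ∃ c : k, c ≠ 0 ∧ A ρ x * Y = c • (Y * A ρ x) := Iff.rfl

theorem Nm_le_Bm (Y : Matrix (Fin 2) (Fin 2) k) : Nm ρ Y ≤ Bm ρ Y := by
  intro x hx
  rcases hx with hx | hx
  · exact ⟨1, one_ne_zero, by rw [hx, one_smul]⟩
  · exact ⟨-1, neg_ne_zero.2 one_ne_zero, by rw [hx, neg_smul, one_smul]⟩

theorem Cg_le_Nm (h2 : (2 : k) ≠ 0) (g : G) : Cg ρ g ≤ Nm ρ (L ρ g) := by
  intro x hx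
  exact Or.inl ((mem_Cg_iff_L ρ h2).1 hx)

theorem mem_Nm_L (h2 : (2 : k) ≠ 0) {g : G} (hg : g ∉ Sc ρ) {x : G} :
    x ∈ Nm ρ (L ρ g) ↔ x ∈ Cg ρ g ∨ x ∈ Pg ρ g := by
  rw [mem_Nm, mem_Cg_iff_L ρ h2, mem_Pg_iff_L ρ h2 hg]

/-- conjugates of centralizers meet in the scalars -/
theorem conj_inter (h2 : (2 : k) ≠ 0) {Y : Matrix (Fin 2) (Fin 2) k} (hY : ¬ IsSc Y) (hYt : Y.trace = 0)
    {x y : G} (hx : x ∉ Bm ρ Y) (hy : A ρ y * Y = Y * A ρ y)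
    (hy' : A ρ (x⁻¹ * y * x) * Y = Y * A ρ (x⁻¹ * y * x)) : y ∈ Sc ρ := by
  by_contra hy0
  have hy0' : ¬ IsSc (A ρ y) := hy0
  have hW : (A ρ x * Y * A ρ x⁻¹) * A ρ y = A ρ y * (A ρ x * Y * A ρ x⁻¹) := by
    rw [A_mul, A_mul] at hy'
    calc (A ρ x * Y * A ρ x⁻¹) * A ρ y = A ρ x * Y * A ρ x⁻¹ * A ρ y * (A ρ x * A ρ x⁻¹) := by
          rw [A_mul_inv, mul_one]
      _ = A ρ x * (Y * (A ρ x⁻¹ * A ρ y * A ρ x)) * A ρ x⁻¹ := by simp only [mul_assoc]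
      _ = A ρ x * (A ρ x⁻¹ * A ρ y * A ρ x * Y) * A ρ x⁻¹ := by rw [hy']
      _ = (A ρ x * A ρ x⁻¹) * A ρ y * A ρ x * Y * A ρ x⁻¹ := by simp only [mul_assoc]
      _ = _ := by rw [A_mul_inv, one_mul]; simp only [mul_assoc]
  obtain ⟨a, b, hab⟩ := comm_span hy0' hy.symm
  obtain ⟨a', b', hab'⟩ := comm_span hy0' hW
  have hb : b ≠ 0 := by
    rintro rfl
    rw [zero_smul, add_zero] at hab
    exact hY ⟨a, hab⟩
  have hAy : A ρ y = b⁻¹ • (Y - a • 1) := by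
    rw [hab, add_sub_cancel_left, smul_smul, inv_mul_cancel₀ hb, one_smul]
  have hW2 : A ρ x * Y * A ρ x⁻¹ = (a' - b' * b⁻¹ * a) • (1 : Matrix (Fin 2) (Fin 2) k) + (b' * b⁻¹) • Y := by
    rw [hab', hAy, smul_smul, smul_sub, smul_smul, sub_smul]; abel
  have hWt : (A ρ x * Y * A ρ x⁻¹).trace = 0 := by
    rw [Matrix.trace_mul_comm, ← mul_assoc, A_inv_mul, one_mul, hYt]
  have h3 : a' - b' * b⁻¹ * a = 0 := by
    have h4 := congrArg Matrix.trace hW2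
    rw [hWt, Matrix.trace_add, trace_smul_one, Matrix.trace_smul, hYt, smul_zero, add_zero] at h4
    exact (mul_eq_zero.1 h4.symm).resolve_left h2
  rw [h3, zero_smul, zero_add] at hW2
  have h5 : A ρ x * Y = (b' * b⁻¹) • (Y * A ρ x) := by
    calc A ρ x * Y = A ρ x * Y * (A ρ x⁻¹ * A ρ x) := by rw [A_inv_mul, mul_one]
      _ = (A ρ x * Y * A ρ x⁻¹) * A ρ x := by simp only [mul_assoc]
      _ = _ := by rw [hW2, smul_mul_assoc]
  refine hx ⟨b' * b⁻¹, ?_, h5⟩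
  intro h0
  rw [h0, zero_smul] at h5
  apply hY
  refine ⟨0, ?_⟩
  rw [zero_smul]
  calc Y = A ρ x⁻¹ * A ρ x * Y := by rw [A_inv_mul, one_mul]
    _ = A ρ x⁻¹ * (A ρ x * Y) := by rw [mul_assoc]
    _ = 0 := by rw [h5, mul_zero]

/-- anticommuting matrices -/
theorem trace_zero_of_anti {Y : Matrix (Fin 2) (Fin 2) k} (hY : ¬ IsSc Y) (hYt : Y.trace = 0)
    {X : Matrix (Fin 2) (Fin 2) k} (h : X * Y = -(Y * X)) : X.trace = 0 := by
  rw [eq_neg_iff_add_eq_zero, ch_lin, hYt, zero_smul, add_zero, mul_zero, sub_zero] at h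
  by_contra hne
  apply hY
  refine ⟨-(X.trace)⁻¹ * (X * Y).trace, ?_⟩
  have h3 : X.trace • Y = -((X * Y).trace • (1 : Matrix (Fin 2) (Fin 2) k)) :=
    eq_neg_of_add_eq_zero_left h
  calc Y = (X.trace)⁻¹ • (X.trace • Y) := by rw [smul_smul, inv_mul_cancel₀ hne, one_smul]
    _ = _ := by rw [h3, smul_neg, smul_smul, neg_mul, neg_smul]

section fin

variable [Fintype G]

/-- the order of `N` -/
theorem card_Nm (h2 : (2 : k) ≠ 0) {g : G} (hg : g ∉ Sc ρ) (hne : (Pg ρ g).Nonempty) :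
    Nat.card (Nm ρ (L ρ g)) = 2 * Nat.card (Cg ρ g) := by
  have h1 : ((Nm ρ (L ρ g) : Subgroup G) : Set G) = (Cg ρ g : Set G) ∪ Pg ρ g := by
    ext x
    exact mem_Nm_L ρ h2 hg
  have h3 : Disjoint (Cg ρ g : Set G) (Pg ρ g) := by
    rw [Set.disjoint_left]
    intro x hx hx'
    exact Pg_not_Cg ρ h2 hg hx' hx
  have h4 : Nat.card (Nm ρ (L ρ g)) = ((Nm ρ (L ρ g) : Subgroup G) : Set G).ncard := rfl
  rw [h4, h1, Set.ncard_union_eq h3 (Set.toFinite _) (Set.toFinite _)]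
  have h5 : (Cg ρ g : Set G).ncard = Nat.card (Cg ρ g) := rfl
  have h6 : (Pg ρ g).ncard = Nat.card (Pg ρ g) := rfl
  rw [h5, h6, card_Pg_eq ρ hg hne, two_mul]

/-- the intersection of `C` with a conjugate of `N` -/
def Dm (g x : G) : Subgroup G :=
  Cg ρ g ⊓ (Nm ρ (L ρ g)).comap (MulAut.conj x⁻¹).toMonoidHom

omit [Fintype G] in
theorem mem_Dm {g x y : G} : y ∈ Dm ρ g x ↔ y ∈ Cg ρ g ∧ x⁻¹ * y * x ∈ Nm ρ (L ρ g) := by
  unfold Dm
  rw [Subgroup.mem_inf, Subgroup.mem_comap]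
  simp [MulAut.conj_apply]

theorem card_Dm_le (h2 : (2 : k) ≠ 0) {g x : G} (hg : g ∉ Sc ρ) (hx : x ∉ Bm ρ (L ρ g)) :
    Nat.card (Dm ρ g x) ≤ 2 * Nat.card (Sc ρ) := by
  have h1 : ((Dm ρ g x : Subgroup G) : Set G) ⊆ (Sc ρ : Set G) ∪ (Tz ρ ∩ (Cg ρ g : Set G)) := by
    intro y hy
    obtain ⟨hy1, hy2⟩ := (mem_Dm ρ).1 hy
    rcases hy2 with h | h
    · left
      exact conj_inter ρ h2 (L_not_sc ρ h2 hg) (L_trace ρ g) hx ((mem_Cg_iff_L ρ h2).1 hy1) h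
    · right
      refine ⟨?_, hy1⟩
      have h3 := trace_zero_of_anti (L_not_sc ρ h2 hg) (L_trace ρ g) h
      rw [A_mul, A_mul, Matrix.trace_mul_comm, ← mul_assoc, A_mul_inv, one_mul] at h3
      exact h3
  have h4 : Nat.card (Dm ρ g x) = ((Dm ρ g x : Subgroup G) : Set G).ncard := rfl
  rw [h4]
  refine (Set.ncard_le_ncard h1 (Set.toFinite _)).trans ((Set.ncard_union_le _ _).trans ?_)
  have h5 : (Sc ρ : Set G).ncard = Nat.card (Sc ρ) := rfl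
  have h6 : (Tz ρ ∩ (Cg ρ g : Set G)).ncard = Nat.card ((Tz ρ ∩ (Cg ρ g : Set G) : Set G)) := rfl
  rw [h5, h6, two_mul]
  exact Nat.add_le_add_left (card_inter_le ρ h2 hg) _

omit [Fintype G] in
theorem Sc_le_Dm (h2 : (2 : k) ≠ 0) (g x : G) : Sc ρ ≤ Dm ρ g x := by
  intro y hy
  rw [mem_Dm]
  refine ⟨Sc_le ρ _ hy, ?_⟩
  apply Cg_le_Nm ρ h2 g
  obtain ⟨c, hc⟩ := hy
  have : x⁻¹ * y * x ∈ Sc ρ := by
    refine ⟨c, ?_⟩
    rw [A_mul, A_mul, hc, mul_smul_comm, mul_one, smul_mul_assoc, A_inv_mul]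
  exact Sc_le ρ _ this

omit [Fintype G] in
theorem Dm_le (g x : G) : Dm ρ g x ≤ Cg ρ g := inf_le_left

theorem relIndex_Dm (h2 : (2 : k) ≠ 0) {g x : G} (hx : x ∉ Nm ρ (L ρ g)) :
    (Dm ρ g x).relIndex (Cg ρ g) + 1 ≤ (Nm ρ (L ρ g)).index := by
  have hst : (Dm ρ g x).subgroupOf (Cg ρ g) =
      MulAction.stabilizer (Cg ρ g) ((x : G) : G ⧸ Nm ρ (L ρ g)) := by
    ext c
    rw [Subgroup.mem_subgroupOf, MulAction.mem_stabilizer_iff, mem_Dm]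
    have e1 : c • ((x : G) : G ⧸ Nm ρ (L ρ g)) = ((c.1 * x : G) : G ⧸ Nm ρ (L ρ g)) := rfl
    rw [e1, eq_comm, QuotientGroup.eq]
    constructor
    · rintro ⟨-, h⟩
      rwa [← mul_assoc]
    · intro h
      refine ⟨c.2, ?_⟩
      rwa [← mul_assoc] at h
  have h1 : (Dm ρ g x).relIndex (Cg ρ g) =
      (MulAction.orbit (Cg ρ g) ((x : G) : G ⧸ Nm ρ (L ρ g))).ncard := by
    unfold Subgroup.relIndex
    rw [hst, MulAction.index_stabilizer]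
  have h3 : MulAction.orbit (Cg ρ g) ((x : G) : G ⧸ Nm ρ (L ρ g)) ⊆
      ({((1 : G) : G ⧸ Nm ρ (L ρ g))} : Set (G ⧸ Nm ρ (L ρ g)))ᶜ := by
    rintro _ ⟨c, rfl⟩ h
    have e1 : c • ((x : G) : G ⧸ Nm ρ (L ρ g)) = ((c.1 * x : G) : G ⧸ Nm ρ (L ρ g)) := rfl
    have h' : ((c.1 * x : G) : G ⧸ Nm ρ (L ρ g)) = ((1 : G) : G ⧸ Nm ρ (L ρ g)) := h
    rw [eq_comm, QuotientGroup.eq, inv_one, one_mul] at h'
    apply hx
    have hc : c.1 ∈ Nm ρ (L ρ g) := Cg_le_Nm ρ h2 g c.2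
    have := (Nm ρ (L ρ g)).mul_mem ((Nm ρ (L ρ g)).inv_mem hc) h'
    rwa [inv_mul_cancel_left] at this
  rw [h1]
  have h4 := Set.ncard_le_ncard h3 (Set.toFinite _)
  have h5 : ({((1 : G) : G ⧸ Nm ρ (L ρ g))} : Set (G ⧸ Nm ρ (L ρ g)))ᶜ.ncard + 1 =
      (Nm ρ (L ρ g)).index := by
    have := Set.ncard_add_ncard_compl ({((1 : G) : G ⧸ Nm ρ (L ρ g))} : Set (G ⧸ Nm ρ (L ρ g)))
    rw [Set.ncard_singleton] at this
    rw [add_comm, this]
    rfl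
  omega

/-- if `G` normalises the line of `L g` -/
theorem card_Tz_le (h2 : (2 : k) ≠ 0) {g : G} (hg : g ∉ Sc ρ) (hB : Bm ρ (L ρ g) = ⊤) :
    Nat.card (Tz ρ) ≤ Nat.card (Pg ρ g) + Nat.card (Sc ρ) := by
  have h1 : Tz ρ ⊆ Pg ρ g ∪ (Tz ρ ∩ (Cg ρ g : Set G)) := by
    intro x hx
    have hx' : (A ρ x).trace = 0 := hx
    obtain ⟨c, hc0, hc⟩ := (mem_Bm ρ).1 (hB ▸ Subgroup.mem_top x : x ∈ Bm ρ (L ρ g))
    by_cases hc1 : c = -1
    · left
      rw [mem_Pg_iff_L ρ h2 hg, hc, hc1, neg_smul, one_smul]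
    · right
      refine ⟨hx, ?_⟩
      have h3 := ch_lin (A ρ x) (L ρ g)
      rw [hx', L_trace, zero_smul, zero_smul, zero_add, zero_add, zero_mul, sub_zero, hc] at h3
      have h4 : (1 + c) • (L ρ g * A ρ x) = (c • (L ρ g * A ρ x)).trace • (1 : Matrix (Fin 2) (Fin 2) k) := by
        rw [← h3, add_smul, one_smul, add_comm]
      have hc2 : 1 + c ≠ 0 := by
        intro h
        exact hc1 (by linear_combination h)
      have h5 : L ρ g * A ρ x = ((1 + c)⁻¹ * (c • (L ρ g * A ρ x)).trace) • (1 : Matrix (Fin 2) (Fin 2) k) := by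
        rw [← smul_smul, ← h4, smul_smul, inv_mul_cancel₀ hc2, one_smul]
      rw [SetLike.mem_coe, mem_Cg_iff_L ρ h2]
      -- `L x = s`, so `x L = s`
      have h6 : L ρ g = ((1 + c)⁻¹ * (c • (L ρ g * A ρ x)).trace) • A ρ x⁻¹ := by
        calc L ρ g = L ρ g * A ρ x * A ρ x⁻¹ := by rw [mul_assoc, A_mul_inv, mul_one]
          _ = _ := by
              conv_lhs => rw [h5]
              rw [smul_mul_assoc, one_mul]
      calc A ρ x * L ρ g = ((1 + c)⁻¹ * (c • (L ρ g * A ρ x)).trace) • (A ρ x * A ρ x⁻¹) := by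
            conv_lhs => rw [h6]
            rw [mul_smul_comm]
        _ = L ρ g * A ρ x := by rw [A_mul_inv, ← h5]
  have h3 : Nat.card (Tz ρ) = (Tz ρ).ncard := rfl
  rw [h3]
  refine (Set.ncard_le_ncard h1 (Set.toFinite _)).trans ((Set.ncard_union_le _ _).trans ?_)
  exact Nat.add_le_add_left (card_inter_le ρ h2 hg) _

/-- an element whose centralizer has order `2z` has trace zero -/
theorem mem_Tz_of_card (h2 : (2 : k) ≠ 0) {g : G} (hg : g ∉ Sc ρ)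
    (hc : Nat.card (Cg ρ g) ≤ 2 * Nat.card (Sc ρ)) : g ∈ Tz ρ := by
  have hz : 0 < Nat.card (Sc ρ) := Nat.card_pos
  have h1 : (Sc ρ).relIndex (Cg ρ g) * Nat.card (Sc ρ) = Nat.card (Cg ρ g) := by
    rw [mul_comm]
    have e1 : Nat.card (Sc ρ) = Nat.card ((Sc ρ).subgroupOf (Cg ρ g)) :=
      Nat.card_congr (Subgroup.subgroupOfEquivOfLe (Sc_le ρ _)).toEquiv.symm
    rw [e1]
    exact Subgroup.card_mul_index _
  have h3 : (Sc ρ).relIndex (Cg ρ g) ≤ 2 := by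
    by_contra h
    have : 3 ≤ (Sc ρ).relIndex (Cg ρ g) := by omega
    nlinarith
  have h4 : (Sc ρ).relIndex (Cg ρ g) ≠ 1 := by
    intro h
    exact hg (Subgroup.relIndex_eq_one.1 h (self_mem ρ g))
  have h5 : (Sc ρ).relIndex (Cg ρ g) ≠ 0 := by
    intro h
    rw [h, zero_mul] at h1
    have : 0 < Nat.card (Cg ρ g) := Nat.card_pos
    omega
  have h6 : ((Sc ρ).subgroupOf (Cg ρ g)).index = 2 := by
    show (Sc ρ).relIndex (Cg ρ g) = 2
    omega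
  have h7 := Subgroup.mul_self_mem_of_index_two h6 ⟨g, self_mem ρ g⟩
  rw [Subgroup.mem_subgroupOf] at h7
  obtain ⟨c, hcc⟩ := h7
  have h8 : A ρ g * A ρ g = c • 1 := by rw [← A_mul]; exact hcc
  rw [ch] at h8
  rw [mem_Tz]
  by_contra hne
  apply hg
  refine ⟨((A ρ g).trace)⁻¹ * (c + (A ρ g).det), ?_⟩
  have h9 : (A ρ g).trace • A ρ g = (c + (A ρ g).det) • (1 : Matrix (Fin 2) (Fin 2) k) := by
    rw [add_smul, ← h8]; abel
  rw [← smul_smul, ← h9, smul_smul, inv_mul_cancel₀ hne, one_smul]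

end fin

end Pool.Agent.H502.TZ
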