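import Pool.Agent.H502.TZ.B3

/-!
# Groups of 2 × 2 matrices with many elements of trace zero: the theorem
-/

set_option autoImplicit false

namespace Pool.Agent.H502.TZ

open Matrix

variable {k : Type*} [Field k] {G : Type*} [Group G] (ρ : G →* GL (Fin 2) k)

section fin

variable [Fintype G]

theorem card_mul {H K : Subgroup G} (h : H ≤ K) : H.relIndex K * Nat.card H = Nat.card K := by
  rw [mul_comm]
  have e1 : Nat.card H = Nat.card (H.subgroupOf K) :=
    Nat.card_congr (Subgroup.subgroupOfEquivOfLe h).toEquiv.symm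
  rw [e1]
  exact Subgroup.card_mul_index _

theorem mul_Sc_mem {x s : G} (hx : x ∈ Tz ρ) (hs : s ∈ Sc ρ) : x * s ∈ Tz ρ := by
  obtain ⟨c, hc⟩ := hs
  rw [mem_Tz, A_mul, hc, mul_smul_comm, mul_one, Matrix.trace_smul, (mem_Tz ρ).1 hx, smul_zero]

/-- `|Z|` is a multiple of `z` -/
theorem dvd_card_Tz : Nat.card (Sc ρ) ∣ Nat.card (Tz ρ) := by
  have h1 : Tz ρ = (QuotientGroup.mk : G → G ⧸ Sc ρ) ⁻¹' ((QuotientGroup.mk : G → G ⧸ Sc ρ) '' (Tz ρ)) := by
    ext x
    constructor
    · intro hx
      exact ⟨x, hx, rfl⟩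
    · rintro ⟨y, hy, hxy⟩
      rw [QuotientGroup.eq] at hxy
      have := mul_Sc_mem ρ hy hxy
      rwa [mul_inv_cancel_left] at this
  have h3 := Nat.card_congr (QuotientGroup.preimageMkEquivSubgroupProdSet (Sc ρ)
    ((QuotientGroup.mk : G → G ⧸ Sc ρ) '' (Tz ρ)))
  rw [Nat.card_prod] at h3
  rw [h1]
  exact ⟨_, h3⟩

/-- the arithmetic for `e ≥ 4` -/
theorem arith_big {i m n : ℕ} (hm : 3 ≤ m) (hn : 8 * m ≤ n) (hi : 3 * n + 1 ≤ 8 * i)
    (h : i * i + 1 + m + m * i ≤ 2 * i + n + m * n) : False := by
  obtain ⟨m', rfl⟩ := Nat.exists_eq_add_of_le hm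
  obtain ⟨n', rfl⟩ := Nat.exists_eq_add_of_le hn
  zify at *
  nlinarith [mul_nonneg (show (0:ℤ) ≤ m' by positivity) (show (0:ℤ) ≤ n' by positivity),
    mul_self_nonneg ((8 : ℤ) * i - (3 * (8 * (3 + m') + n') + 1)),
    mul_nonneg (sub_nonneg.2 hi) (show (0:ℤ) ≤ 8 * i + m' by positivity),
    mul_nonneg (show (0:ℤ) ≤ m' by positivity) (show (0:ℤ) ≤ m' by positivity),
    mul_nonneg (show (0:ℤ) ≤ n' by positivity) (show (0:ℤ) ≤ n' by positivity),
    mul_nonneg (sub_nonneg.2 hi) (show (0:ℤ) ≤ n' by positivity),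
    mul_nonneg (sub_nonneg.2 hi) (show (0:ℤ) ≤ m' by positivity)]

/-- **Theorem.** A finite group of invertible `2 × 2` matrices in characteristic not two in which
more than `3/8` of the elements have trace zero has a subgroup of index two outside of which all
elements have trace zero. -/
theorem exists_index_two (h2 : (2 : k) ≠ 0) (h : 3 * Nat.card G < 8 * Nat.card (Tz ρ)) :
    ∃ H : Subgroup G, H.index = 2 ∧ ∀ g, g ∉ H → (A ρ g).trace = 0 := by
  classical
  have hz : 0 < Nat.card (Sc ρ) := Nat.card_pos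
  have hn := (Sc ρ).card_mul_index
  obtain ⟨i, hi⟩ := dvd_card_Tz ρ
  set z := Nat.card (Sc ρ) with hzdef
  set n := (Sc ρ).index with hndef
  have hin : 3 * n + 1 ≤ 8 * i := by
    rw [hi, ← hn] at h
    have h3 : z * (3 * n) < z * (8 * i) := by
      calc z * (3 * n) = 3 * (z * n) := by ring
        _ < 8 * (z * i) := h
        _ = _ := by ring
    have := Nat.lt_of_mul_lt_mul_left h3
    omega
  by_cases hall : ∀ g : G, g ∉ Sc ρ → ¬ (Pg ρ g).Nonempty
  · -- `P(g)` is always empty
    have h0 : ∀ g : G, g ∉ Sc ρ → Nat.card (Pg ρ g) = 0 := by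
      intro g hg
      rw [Set.not_nonempty_iff_eq_empty.1 (hall g hg)]
      simp
    have h3 := star_two ρ h2 0 (fun g hg => (h0 g hg).le) (fun g hg _ => h0 g hg)
    rw [add_zero, ← hzdef, hi] at h3
    have hi0 : 0 < i := by omega
    have h4 : i ≤ 1 := by
      by_contra hc
      have : 2 ≤ i := by omega
      have h5 : z * i * (z * i) ≤ z * i * z := by rw [mul_comm (z * i) z]; exact h3
      have h6 := Nat.le_of_mul_le_mul_left h5 (by positivity)
      nlinarith
    have hn0 : n ≠ 0 := by
      intro h0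
      rw [h0, mul_zero] at hn
      have : 0 < Nat.card G := Nat.card_pos
      omega
    have hn1 : n ≠ 1 := by
      intro h1
      have h5 : Sc ρ = ⊤ := Subgroup.index_eq_one.1 h1
      have h6 : Nat.card (Tz ρ) = 0 := by
        rw [Set.eq_empty_of_forall_notMem (s := Tz ρ) (fun x hx => not_Sc_of_Tz ρ h2 hx
          (by rw [h5]; exact Subgroup.mem_top x))]
        simp
      rw [hi] at h6
      have : 0 < z * i := by positivity
      omega
    have hn2 : (Sc ρ).index = 2 := by rw [← hndef]; omega
    refine ⟨Sc ρ, hn2, ?_⟩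
    intro g hg
    obtain ⟨y, hy⟩ : (Tz ρ).Nonempty := by
      rw [Set.nonempty_iff_ne_empty]
      intro he
      rw [he] at hi
      simp at hi
      omega
    have h5 : y⁻¹ * g ∈ Sc ρ := by
      rw [Subgroup.mul_mem_iff_of_index_two hn2]
      constructor
      · intro h6
        exact absurd ((Sc ρ).inv_mem_iff.1 h6) (not_Sc_of_Tz ρ h2 hy)
      · intro h6
        exact absurd h6 hg
    have h7 := mul_Sc_mem ρ hy h5
    rwa [mul_inv_cancel_left] at h7
  · push Not at hall
    obtain ⟨g₁, hg₁, hg₁'⟩ := hall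
    obtain ⟨g₀, hg₀, hmax⟩ := Finset.exists_max_image
      (Finset.univ.filter (fun g : G => g ∉ Sc ρ ∧ (Pg ρ g).Nonempty)) (fun g => Nat.card (Cg ρ g))
      ⟨g₁, by simp [hg₁, hg₁']⟩
    simp only [Finset.mem_filter, Finset.mem_univ, true_and] at hg₀ hmax
    obtain ⟨hgS, hgP⟩ := hg₀
    have hM : ∀ g : G, g ∉ Sc ρ → Nat.card (Pg ρ g) ≤ Nat.card (Cg ρ g₀) := by
      intro g hg
      rcases (Pg ρ g).eq_empty_or_nonempty with he | hne
      · rw [he]; simp
      · exact (card_Pg_le ρ hg).trans (hmax g ⟨hg, hne⟩)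
    have hmz := card_mul (Sc_le ρ (A ρ g₀))
    set m := (Sc ρ).relIndex (Cm ρ (A ρ g₀)) with hmdef
    rw [← hzdef] at hmz
    have hm1 : m ≠ 1 := fun h1 => hgS (Subgroup.relIndex_eq_one.1 h1 (self_mem ρ g₀))
    have hm0 : m ≠ 0 := by
      intro h0
      rw [h0, zero_mul] at hmz
      have : 0 < Nat.card (Cm ρ (A ρ g₀)) := Nat.card_pos
      omega
    have hN := card_Nm ρ h2 hgS hgP
    have hG := (Nm ρ (L ρ g₀)).card_mul_index
    set e := (Nm ρ (L ρ g₀)).index with hedef
    have he0 : e ≠ 0 := by
      intro h0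
      rw [h0, mul_zero] at hG
      have : 0 < Nat.card G := Nat.card_pos
      omega
    have hCg : Nat.card (Cg ρ g₀) = m * z := hmz.symm
    have hnme : n = 2 * m * e := by
      rw [hN, hCg, ← hn] at hG
      have h3 : z * (2 * m * e) = z * n := by
        rw [← hG]; ring
      exact (Nat.eq_of_mul_eq_mul_left hz h3).symm
    -- the inequality
    have hst := star ρ h2 (Nat.card (Cg ρ g₀)) (fun g hg _ => hM g hg)
    rw [hi, ← hzdef, hCg, ← hn] at hst
    have hst' : i * i + 1 + m + m * i ≤ 2 * i + n + m * n := by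
      have h3 : z * z * (i * i + 1 + m + m * i) ≤ z * z * (2 * i + n + m * n) := by
        calc z * z * (i * i + 1 + m + m * i) = z * i * (z * i) + z * z + m * z * z + m * z * (z * i) := by
              ring
          _ ≤ _ := hst
          _ = _ := by ring
      exact Nat.le_of_mul_le_mul_left h3 (by positivity)
    by_cases he1 : e = 1
    · -- `H = C(g₀)`
      refine ⟨Cg ρ g₀, ?_, ?_⟩
      · have h3 := (Cg ρ g₀).card_mul_index
        rw [hCg] at h3
        rw [hN, hCg, he1, mul_one] at hG
        rw [← hG] at h3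
        have h4 : m * z * (Cg ρ g₀).index = m * z * 2 := by rw [h3]; ring
        exact Nat.eq_of_mul_eq_mul_left (by positivity) h4
      · intro g hg
        have h3 : Nm ρ (L ρ g₀) = ⊤ := Subgroup.index_eq_one.1 he1
        have h4 : g ∈ Nm ρ (L ρ g₀) := by rw [h3]; exact Subgroup.mem_top g
        rcases (mem_Nm_L ρ h2 hgS).1 h4 with h5 | h5
        · exact absurd h5 hg
        · exact h5.1
    · exfalso
      by_cases hm2 : m = 2
      · have hE : ∀ g : G, g ∉ Sc ρ → g ∉ Tz ρ → Nat.card (Pg ρ g) = 0 := by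
          intro g hg hgT
          rcases (Pg ρ g).eq_empty_or_nonempty with he | hne
          · rw [he]; simp
          · exfalso
            apply hgT
            apply mem_Tz_of_card ρ h2 hg
            have := hmax g ⟨hg, hne⟩
            rw [hCg, hm2] at this
            exact this
        have h3 := star_two ρ h2 (2 * z) (fun g hg => by
          have := hM g hg
          rwa [hCg, hm2] at this) hE
        rw [← hzdef, hi] at h3
        have hi0 : 0 < i := by omega
        have h4 : i ≤ 3 := by
          by_contra hc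
          have h6 : z * i * (z * i) ≤ z * i * (3 * z) := by
            calc z * i * (z * i) ≤ (z + 2 * z) * (z * i) := h3
              _ = _ := by ring
          have h7 := Nat.le_of_mul_le_mul_left h6 (by positivity)
          have : 4 ≤ i := by omega
          nlinarith
        rw [hm2] at hnme
        omega
      have hm3 : 3 ≤ m := by omega
      by_cases he4 : 4 ≤ e
      · refine arith_big hm3 (n := n) ?_ hin hst'
        rw [hnme]
        nlinarith
      -- `e = 2` or `e = 3`
      have hBN : (Nm ρ (L ρ g₀)).relIndex (Bm ρ (L ρ g₀)) * (Bm ρ (L ρ g₀)).index = e :=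
        Subgroup.relIndex_mul_index (Nm_le_Bm ρ _)
      by_cases hB : Bm ρ (L ρ g₀) = ⊤
      · have h3 := card_Tz_le ρ h2 hgS hB
        rw [hi, ← hzdef] at h3
        have h4 := hM g₀ hgS
        rw [hCg] at h4
        have h5 : z * i ≤ z * (m + 1) := by
          calc z * i ≤ Nat.card (Pg ρ g₀) + z := h3
            _ ≤ m * z + z := by omega
            _ = _ := by ring
        have h6 := Nat.le_of_mul_le_mul_left h5 hz
        have h7 : 2 * m * 2 ≤ n := by rw [hnme]; exact Nat.mul_le_mul_left _ (by omega)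
        omega
      · obtain ⟨x, hx⟩ : ∃ x, x ∉ Bm ρ (L ρ g₀) := by
          by_contra hc
          push Not at hc
          exact hB ((Subgroup.eq_top_iff' _).2 hc)
        have hxN : x ∉ Nm ρ (L ρ g₀) := fun h => hx (Nm_le_Bm ρ _ h)
        have h3 := relIndex_Dm ρ h2 hxN
        have h4 := card_Dm_le ρ h2 hgS hx
        have h5 := card_mul (Dm_le ρ g₀ x)
        have h6 := card_mul (Sc_le_Dm ρ h2 g₀ x)
        rw [hCg] at h5
        set r := (Dm ρ g₀ x).relIndex (Cg ρ g₀) with hrdef
        set d := (Sc ρ).relIndex (Dm ρ g₀ x) with hddef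
        rw [← hzdef] at h4 h6
        rw [← h6] at h4 h5
        have hd2 : d ≤ 2 := Nat.le_of_mul_le_mul_right h4 hz
        have hrd : r * d = m := by
          have h7 : r * d * z = m * z := by rw [← h5]; ring
          exact Nat.eq_of_mul_eq_mul_right hz h7
        have hr2 : r ≤ 2 := by omega
        have he23 : e = 2 ∨ e = 3 := by omega
        rcases he23 with he2 | he3
        · have hr1 : r ≤ 1 := by omega
          have : r * d ≤ 1 * 2 := Nat.mul_le_mul hr1 hd2
          omega
        · have hm4 : m = 4 := by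
            have h8 : r * d ≤ 4 := Nat.mul_le_mul hr2 hd2
            interval_cases r <;> interval_cases d <;> omega
          rw [hm4, he3] at hnme
          rw [hm4, hnme] at hst'
          rw [hnme] at hin
          have h10 : 10 ≤ i := by omega
          nlinarith

end fin

end Pool.Agent.H502.TZ
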