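import Pool.Agent.H502.TZ.B4
import Pool.Agent.H502.EC.A10

/-!
# Quadratic extensions and Frobenius elements
-/

set_option autoImplicit false

namespace Pool.Agent.H502.TZ

open Pool.Agent.H901R3.MS Pool.Agent.Q46.FR Pool.Agent.Y673.Loc NumberField IsDedekindDomain
open Pool.Agent.W401.Cheb Pool.Agent.W275.FM Pool.Agent.W275.FMK Pool.Agent.Y673.FM
open WeierstrassCurve Matrix Filter Topology Pool.Agent.H502.SM Pool.Agent.H502.EC

variable {K : Type} [Field K] [NumberField K]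

/-- `d` is a square modulo `v` -/
def SqMod (d : 𝓞 K) (v : HeightOneSpectrum (𝓞 K)) : Prop := ∃ y : 𝓞 K, d - y ^ 2 ∈ v.asIdeal

theorem pow_norm (v : HeightOneSpectrum (𝓞 K)) (y : 𝓞 K) :
    y ^ Ideal.absNorm v.asIdeal - y ∈ v.asIdeal := by
  have : v.asIdeal.IsMaximal := v.isMaximal
  let : Field (𝓞 K ⧸ v.asIdeal) := Ideal.Quotient.field v.asIdeal
  have : Finite (𝓞 K ⧸ v.asIdeal) := Ideal.finiteQuotientOfFreeOfNeBot _ v.ne_bot
  let : Fintype (𝓞 K ⧸ v.asIdeal) := Fintype.ofFinite _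
  have hc : Fintype.card (𝓞 K ⧸ v.asIdeal) = Ideal.absNorm v.asIdeal := by
    rw [Ideal.absNorm_apply, Submodule.cardQuot_apply, Nat.card_eq_fintype_card]
  rw [← Ideal.Quotient.eq_zero_iff_mem, map_sub, map_pow, ← hc, FiniteField.pow_card, sub_self]

theorem isIntegral_s {d : 𝓞 K} {s : AlgebraicClosure K} (hs : s ^ 2 = algebraMap K (AlgebraicClosure K) d) :
    _root_.IsIntegral ℤ s := by
  have h1 : _root_.IsIntegral ℤ (s ^ 2) := by
    rw [hs]
    exact (RingOfIntegers.isIntegral_coe d).algebraMap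
  exact _root_.IsIntegral.of_pow two_pos h1

/-- if the Frobenius element fixes `√d` then `d` is a square modulo `v` -/
theorem sqMod_of_fix {d : 𝓞 K} {s : AlgebraicClosure K}
    (hs : s ^ 2 = algebraMap K (AlgebraicClosure K) d) {v : HeightOneSpectrum (𝓞 K)} {x : GK K}
    (hx : IsFrob v x) (hxs : x s = s) : SqMod d v := by
  obtain ⟨Q, hQ, hQv, hF⟩ := hx
  set S : 𝓞 (AlgebraicClosure K) := ⟨s, isIntegral_s hs⟩ with hS
  have := hQ
  let : Field (𝓞 (AlgebraicClosure K) ⧸ Q) := Ideal.Quotient.field Q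
  have h1 : x • S = S := by
    apply RingOfIntegers.ext
    exact hxs
  have h2 := hF S
  rw [h1] at h2
  set q := Ideal.absNorm v.asIdeal with hq
  -- the finite field inside
  have : v.asIdeal.IsMaximal := v.isMaximal
  have : Finite (𝓞 K ⧸ v.asIdeal) := Ideal.finiteQuotientOfFreeOfNeBot _ v.ne_bot
  have hc : Nat.card (𝓞 K ⧸ v.asIdeal) = q := by
    rw [hq, Ideal.absNorm_apply, Submodule.cardQuot_apply]
  have hq1 : 1 < q := by
    rw [← hc]
    exact Finite.one_lt_card
  let f : 𝓞 K ⧸ v.asIdeal →+* 𝓞 (AlgebraicClosure K) ⧸ Q :=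
    Ideal.quotientMap Q (algebraMap (𝓞 K) (𝓞 (AlgebraicClosure K))) hQv.ge
  have hf : Function.Injective f := Ideal.quotientMap_injective' hQv.le
  have hroot : ∀ y : 𝓞 K ⧸ v.asIdeal, (f y) ^ q = f y := by
    intro y
    obtain ⟨y, rfl⟩ := Ideal.Quotient.mk_surjective y
    rw [← map_pow, ← map_pow]
    congr 1
    rw [← sub_eq_zero, ← map_sub, Ideal.Quotient.eq_zero_iff_mem]
    exact pow_norm v y
  have hsroot : (Ideal.Quotient.mk Q S) ^ q = Ideal.Quotient.mk Q S := by
    rw [← map_pow, eq_comm, ← sub_eq_zero, ← map_sub, Ideal.Quotient.eq_zero_iff_mem]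
    exact h2
  have hrange : Ideal.Quotient.mk Q S ∈ Set.range f := by
    by_contra hnot
    let P : Polynomial (𝓞 (AlgebraicClosure K) ⧸ Q) := Polynomial.X ^ q - Polynomial.X
    have hP : P ≠ 0 := FiniteField.X_pow_card_sub_X_ne_zero _ hq1
    have hdeg : P.natDegree = q := FiniteField.X_pow_card_sub_X_natDegree_eq _ hq1
    have hsub : Set.range f ∪ {Ideal.Quotient.mk Q S} ⊆ (P.rootSet (𝓞 (AlgebraicClosure K) ⧸ Q)) := by
      rintro y (⟨z, rfl⟩ | rfl)
      · rw [Polynomial.mem_rootSet]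
        refine ⟨hP, ?_⟩
        simp [P, hroot]
      · rw [Polynomial.mem_rootSet]
        refine ⟨hP, ?_⟩
        simp [P, hsroot]
    have h3 := Set.ncard_le_ncard hsub (Polynomial.rootSet_finite _ _)
    have h4 : (P.rootSet (𝓞 (AlgebraicClosure K) ⧸ Q)).ncard ≤ q := by
      rw [← hdeg]
      exact Polynomial.ncard_rootSet_le P _
    have h5 : (Set.range f ∪ {Ideal.Quotient.mk Q S}).ncard = q + 1 := by
      rw [Set.ncard_union_eq (Set.disjoint_singleton_right.2 hnot) (Set.finite_range f)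
        (Set.finite_singleton _), Set.ncard_singleton, ← hc]
      congr 1
      rw [← Set.image_univ, Set.ncard_image_of_injective _ hf, Set.ncard_univ]
    omega
  obtain ⟨y, hy⟩ := hrange
  obtain ⟨y, rfl⟩ := Ideal.Quotient.mk_surjective y
  refine ⟨y, ?_⟩
  rw [← hQv, Ideal.mem_comap]
  have h3 : S - algebraMap (𝓞 K) (𝓞 (AlgebraicClosure K)) y ∈ Q := by
    rw [← Ideal.Quotient.eq_zero_iff_mem, map_sub, ← hy, sub_eq_zero]
    rfl
  have h4 : algebraMap (𝓞 K) (𝓞 (AlgebraicClosure K)) (d - y ^ 2) =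
      (S - algebraMap (𝓞 K) (𝓞 (AlgebraicClosure K)) y) *
        (S + algebraMap (𝓞 K) (𝓞 (AlgebraicClosure K)) y) := by
    have h5 : S ^ 2 = algebraMap (𝓞 K) (𝓞 (AlgebraicClosure K)) d := by
      apply RingOfIntegers.ext
      exact hs
    rw [map_sub, map_pow, ← h5]; ring
  rw [h4]
  exact Ideal.mul_mem_right _ _ h3

/-- if the Frobenius element does not fix `√d` then `d` is not a square modulo `v` -/
theorem fix_of_sqMod {d : 𝓞 K} {s : AlgebraicClosure K}
    (hs : s ^ 2 = algebraMap K (AlgebraicClosure K) d) {v : HeightOneSpectrum (𝓞 K)} {x : GK K}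
    (hx : IsFrob v x) (h2 : (2 : 𝓞 K) ∉ v.asIdeal) (hd : d ∉ v.asIdeal) (hxs : x s = -s) :
    ¬ SqMod d v := by
  rintro ⟨y, hy⟩
  obtain ⟨Q, hQ, hQv, hF⟩ := hx
  have := hQ
  have hQp : Q.IsPrime := hQ.isPrime
  set S : 𝓞 (AlgebraicClosure K) := ⟨s, isIntegral_s hs⟩ with hS
  set i := algebraMap (𝓞 K) (𝓞 (AlgebraicClosure K)) with hi
  have hmem : ∀ a : 𝓞 K, i a ∈ Q ↔ a ∈ v.asIdeal := by
    intro a
    rw [← hQv]; rfl
  have h5 : S ^ 2 = i d := by
    apply RingOfIntegers.ext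
    exact hs
  have h1 : x • S = -S := by
    apply RingOfIntegers.ext
    exact hxs
  have h3 := hF S
  rw [h1] at h3
  set q := Ideal.absNorm v.asIdeal with hq
  have key : ∀ w : 𝓞 K, S - i w ∈ Q → False := by
    intro w hw
    have e1 : S ^ q - (i w) ^ q ∈ Q := by
      obtain ⟨t, ht⟩ := sub_dvd_pow_sub_pow S (i w) q
      rw [ht]
      exact Ideal.mul_mem_right _ _ hw
    have e2 : (i w) ^ q - i w ∈ Q := by
      rw [← map_pow, ← map_sub, hmem]
      exact pow_norm v w
    have e3 : S + S ∈ Q := by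
      have : S + S = (S - i w) - (S ^ q - (i w) ^ q) - ((i w) ^ q - i w) - (-S - S ^ q) := by ring
      rw [this]
      exact Q.sub_mem (Q.sub_mem (Q.sub_mem hw e1) e2) h3
    have e4 : i 2 * S ∈ Q := by
      have : i 2 * S = S + S := by
        rw [map_ofNat]; ring
      rw [this]; exact e3
    rcases hQp.mem_or_mem e4 with h | h
    · exact h2 ((hmem 2).1 h)
    · apply hd
      rw [← hmem, ← h5]
      exact Ideal.pow_mem_of_mem _ h 2 two_pos
  have h6 : (S - i y) * (S - i (-y)) ∈ Q := by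
    have : (S - i y) * (S - i (-y)) = i (d - y ^ 2) := by
      rw [map_sub, map_pow, ← h5, map_neg]; ring
    rw [this, hmem]
    exact hy
  rcases hQp.mem_or_mem h6 with h | h
  · exact key y h
  · exact key (-y) h

end Pool.Agent.H502.TZ
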