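import Pool.Agent.H502.TZ.B5

/-!
# Many Frobenius elements of trace zero
-/

set_option autoImplicit false

namespace Pool.Agent.H502.TZ

open Pool.Agent.H901R3.MS Pool.Agent.Q46.FR Pool.Agent.Y673.Loc NumberField IsDedekindDomain
open Pool.Agent.W401.Cheb Pool.Agent.W275.FM Pool.Agent.W275.FMK Pool.Agent.Y673.FM
open WeierstrassCurve Matrix Filter Topology Pool.Agent.H502.SM Pool.Agent.H502.EC

variable {K : Type} [Field K] [NumberField K]

open Classical in
/-- the quadratic character of a subgroup of index two -/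
noncomputable def eps {G : Type*} [Group G] (H : Subgroup G) (hH : H.index = 2) : G →* ℤˣ where
  toFun x := if x ∈ H then 1 else -1
  map_one' := if_pos H.one_mem
  map_mul' := by
    intro x y
    have h := Subgroup.mul_mem_iff_of_index_two hH (a := x) (b := y)
    by_cases hx : x ∈ H <;> by_cases hy : y ∈ H <;> simp [h, hx, hy]

open Classical in
theorem eps_neg {G : Type*} [Group G] (H : Subgroup G) (hH : H.index = 2) {x : G} :
    eps H hH x = -1 ↔ x ∉ H := by
  change (if x ∈ H then (1 : ℤˣ) else -1) = -1 ↔ x ∉ H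
  by_cases hx : x ∈ H
  · rw [if_pos hx]
    simp [hx]
  · rw [if_neg hx]
    simp [hx]

theorem eps_one {G : Type*} [Group G] (H : Subgroup G) (hH : H.index = 2) {x : G} (hx : x ∈ H) :
    eps H hH x = 1 := if_pos hx

theorem exists_eps {k : Type*} [Field k] (h2 : (2 : k) ≠ 0) (ρ : GK K →* GL (Fin 2) k)
    (hρ : IsOpen (ρ.ker : Set (GK K))) (Good : HeightOneSpectrum (𝓞 K) → Prop) {δ : ℝ}
    (hδ : 3 / 8 < δ) (hG : ∃ᶠ N in atTop, δ ≤ dens Good N)
    (h : ∀ v, Good v → ∃ x, IsFrob v x ∧ (ρ x).val.trace = 0) :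
    ∃ ε : GK K →* ℤˣ, IsOpen (ε.ker : Set (GK K)) ∧ (∃ y, ε y = -1) ∧
      ∀ x, ε x = -1 → (ρ x).val.trace = 0 := by
  classical
  have hfin : Finite (GK K ⧸ ρ.ker) := Subgroup.quotient_finite_of_isOpen _ hρ
  let _ : Fintype (GK K ⧸ ρ.ker) := Fintype.ofFinite _
  set C : Set (GK K) := {x | (ρ x).val.trace = 0} with hC
  have h1 : ∀ s ∈ C, ∀ τ : GK K, τ * s * τ⁻¹ ∈ C := by
    intro s hs τ
    have e1 := trace_conj ρ τ s
    exact e1.trans hs
  have h3 : ∀ s ∈ C, ∀ u ∈ ρ.ker, s * u ∈ C := by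
    intro s hs u hu
    change (ρ (s * u)).val.trace = 0
    rw [map_mul, (MonoidHom.mem_ker).mp hu, mul_one]
    exact hs
  have key := freq_card ρ.ker hρ C h1 h3 Good hG (by
    intro v hv
    obtain ⟨x, hx, hx'⟩ := h v hv
    exact ⟨x, hx', hx⟩)
  let ρ' : GK K ⧸ ρ.ker →* GL (Fin 2) k := QuotientGroup.lift ρ.ker ρ le_rfl
  have hρ' : ∀ x : GK K, A ρ' (QuotientGroup.mk x) = (ρ x).val := fun x => rfl
  have himg : ((QuotientGroup.mk : GK K → GK K ⧸ ρ.ker) '' C) ⊆ Tz ρ' := by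
    rintro _ ⟨x, hx, rfl⟩
    exact hx
  have hcard : (((QuotientGroup.mk : GK K → GK K ⧸ ρ.ker) '' C).ncard : ℝ) ≤ (Nat.card (Tz ρ') : ℝ) := by
    exact_mod_cast Set.ncard_le_ncard himg (Set.toFinite _)
  have hpos : (0 : ℝ) < (Nat.card (GK K ⧸ ρ.ker) : ℝ) := by exact_mod_cast Nat.card_pos
  have hlt : 3 * Nat.card (GK K ⧸ ρ.ker) < 8 * Nat.card (Tz ρ') := by
    have h4 : (3 : ℝ) * Nat.card (GK K ⧸ ρ.ker) < 8 * Nat.card (Tz ρ') := by
      have := mul_lt_mul_of_pos_right hδ hpos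
      linarith
    exact_mod_cast h4
  obtain ⟨H, hH, hHt⟩ := exists_index_two ρ' h2 hlt
  set H' : Subgroup (GK K) := H.comap (QuotientGroup.mk' ρ.ker) with hH'
  have hidx : H'.index = 2 := by
    rw [hH', Subgroup.index_comap_of_surjective _ (QuotientGroup.mk'_surjective _), hH]
  refine ⟨eps H' hidx, ?_, ?_, ?_⟩
  · refine Subgroup.isOpen_mono (H₁ := ρ.ker) ?_ hρ
    intro x hx
    rw [MonoidHom.mem_ker]
    apply eps_one
    rw [hH', Subgroup.mem_comap]
    have : (QuotientGroup.mk' ρ.ker) x = 1 := (QuotientGroup.eq_one_iff x).2 hx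
    rw [this]
    exact H.one_mem
  · by_contra hno
    push Not at hno
    have h5 : H' = ⊤ := by
      rw [Subgroup.eq_top_iff']
      intro x
      by_contra hx
      exact hno x ((eps_neg H' hidx).2 hx)
    rw [h5, Subgroup.index_top] at hidx
    exact absurd hidx (by norm_num)
  · intro x hx
    rw [eps_neg] at hx
    exact hHt (QuotientGroup.mk x) hx

/-- the places at which the Frobenius element changes the sign of `s` -/
theorem dens_half' {d : K} (hd : ¬ IsSquare d) (s : AlgebraicClosure K)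
    (hsd : s ^ 2 = algebraMap K (AlgebraicClosure K) d) :
    ∃ L : ℝ, 1 / 2 ≤ L ∧
      Tendsto (dens (fun v : HeightOneSpectrum (𝓞 K) => ∃ x : GK K, x s = -s ∧ IsFrob v x)) atTop (𝓝 L) := by
  have hs : ∀ x : GK K, x s = s ∨ x s = -s := by
    intro x
    apply sq_eq_sq_iff_eq_or_eq_neg.1
    rw [← map_pow, hsd, AlgEquiv.commutes]
  have hd0 : d ≠ 0 := by
    rintro rfl
    exact hd ⟨0, by ring⟩
  have hs0 : s ≠ 0 := by
    rintro rfl
    rw [zero_pow two_ne_zero] at hsd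
    exact hd0 ((map_eq_zero _).1 hsd.symm)
  have hss : s ≠ -s := by
    intro h
    exact hs0 (self_eq_neg.1 h)
  obtain ⟨y, hy⟩ : ∃ y : GK K, y s = -s := by
    by_contra hno
    push Not at hno
    obtain ⟨t, ht⟩ := (InfiniteGalois.mem_range_algebraMap_iff_fixed (k := K)
      (K := AlgebraicClosure K) s).2 (fun x => (hs x).resolve_right (hno x))
    apply hd
    refine ⟨t, ?_⟩
    apply (algebraMap K (AlgebraicClosure K)).injective
    rw [← hsd, ← ht, map_mul, sq]
  let U : Subgroup (GK K) :=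
    { carrier := {x | x s = s}
      one_mem' := rfl
      mul_mem' := fun {x y} hx hy => by
        change x (y s) = s
        rw [hy, hx]
      inv_mem' := fun {x} hx => by
        change x⁻¹ s = s
        have h1 : x⁻¹ (x s) = s := by
          change (x⁻¹ * x) s = s
          rw [inv_mul_cancel]; rfl
        rw [hx] at h1
        exact h1 }
  have hU : ∀ x : GK K, x ∈ U ↔ x s = s := fun x => Iff.rfl
  have hconj : ∀ x ∈ U, ∀ y : GK K, y * x * y⁻¹ ∈ U := by
    intro x hx y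
    rw [hU] at hx ⊢
    change y (x (y⁻¹ s)) = s
    have h1 : y (y⁻¹ s) = s := by
      change (y * y⁻¹) s = s
      rw [mul_inv_cancel]; rfl
    have h2 : x (y⁻¹ s) = y⁻¹ s := by
      rcases hs y⁻¹ with h | h
      · rw [h, hx]
      · rw [h, map_neg, hx]
    rw [h2, h1]
  have _ : U.Normal := ⟨hconj⟩
  have hopen : IsOpen (U : Set (GK K)) := by
    have _ : FiniteDimensional K (IntermediateField.adjoin K {s}) :=
      IntermediateField.adjoin.finiteDimensional (Algebra.IsIntegral.isIntegral s)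
    refine Subgroup.isOpen_mono (H₁ := (IntermediateField.adjoin K {s}).fixingSubgroup) ?_
      (IntermediateField.fixingSubgroup_isOpen _)
    intro x hx
    rw [IntermediateField.mem_fixingSubgroup_iff] at hx
    exact hx s (IntermediateField.mem_adjoin_simple_self K s)
  have h := Pool.Agent.W528.Ord.chebK K U hopen {x | x s = -s}
    (fun x hx y => by
      change y (x (y⁻¹ s)) = -s
      have hx' : x s = -s := hx
      have h1 : y (y⁻¹ s) = s := by
        change (y * y⁻¹) s = s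
        rw [mul_inv_cancel]; rfl
      have h2 : x (y⁻¹ s) = -(y⁻¹ s) := by
        rcases hs y⁻¹ with h | h
        · rw [h, hx']
        · rw [h, map_neg, hx']
      rw [h2, map_neg, h1])
    (fun x hx u hu => by
      change x (u s) = -s
      have hu' : u s = s := hu
      rw [hu']
      exact hx)
  have hfin : Finite (GK K ⧸ U) := Subgroup.quotient_finite_of_isOpen _ hopen
  have h1 : 1 ≤ ((QuotientGroup.mk : GK K → GK K ⧸ U) '' {x | x s = -s}).ncard := by
    rw [Nat.one_le_iff_ne_zero, Ne, Set.ncard_eq_zero (Set.toFinite _)]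
    exact Set.nonempty_iff_ne_empty.1 ⟨_, y, hy, rfl⟩
  have h2 : Nat.card (GK K ⧸ U) ≤ 2 := by
    classical
    let g : GK K ⧸ U → Bool := fun q => decide ((Quotient.out q : GK K) s = s)
    have hg : Function.Injective g := by
      intro q q' hqq
      have h3 : ((Quotient.out q : GK K) s = s) ↔ ((Quotient.out q' : GK K) s = s) := by
        have := hqq
        simp only [g, decide_eq_decide] at this
        exact this
      have h4 : (Quotient.out q : GK K) s = (Quotient.out q' : GK K) s := by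
        rcases hs (Quotient.out q : GK K) with h | h
        · rw [h, h3.1 h]
        · rcases hs (Quotient.out q' : GK K) with h' | h'
          · rw [h3.2 h', h']
          · rw [h, h']
      have h5 : (QuotientGroup.mk (Quotient.out q : GK K) : GK K ⧸ U) =
          QuotientGroup.mk (Quotient.out q' : GK K) := by
        rw [QuotientGroup.eq, hU]
        change (Quotient.out q : GK K)⁻¹ ((Quotient.out q' : GK K) s) = s
        rw [← h4]
        change ((Quotient.out q : GK K)⁻¹ * (Quotient.out q : GK K)) s = s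
        rw [inv_mul_cancel]; rfl
      rwa [QuotientGroup.out_eq', QuotientGroup.out_eq'] at h5
    have := Nat.card_le_card_of_injective g hg
    simpa using this
  have h3 : 0 < Nat.card (GK K ⧸ U) := Nat.card_pos
  refine ⟨_, ?_, h⟩
  have h2' : (Nat.card (GK K ⧸ U) : ℝ) ≤ 2 := by exact_mod_cast h2
  have h3' : (0 : ℝ) < (Nat.card (GK K ⧸ U) : ℝ) := by exact_mod_cast h3
  have h1' : (1 : ℝ) ≤ (((QuotientGroup.mk : GK K → GK K ⧸ U) '' {x | x s = -s}).ncard : ℝ) := by
    exact_mod_cast h1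
  rw [le_div_iff₀ h3']
  linarith

theorem av_zero {A B : 𝓞 K} {p : ℕ} {v : HeightOneSpectrum (𝓞 K)} :
    av A B p v = 0 ↔ (p : ℤ) ∣ (qv v : ℤ) + 1 - pts v A B := by
  unfold av
  exact ZMod.intCast_zmod_eq_zero_iff_dvd _ _

theorem two_ne {p : ℕ} [hp : Fact p.Prime] (hp2 : p ≠ 2) : (2 : ZMod p) ≠ 0 := by
  have : ((2 : ℕ) : ZMod p) ≠ 0 := by
    rw [Ne, ZMod.natCast_eq_zero_iff]
    intro h
    exact hp2 ((Nat.prime_dvd_prime_iff_eq hp.out Nat.prime_two).mp h)
  exact_mod_cast this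

/-- **(1) ⇒ (3)** -/
theorem main_one_three {A B : 𝓞 K} (hD : 4 * A ^ 3 + 27 * B ^ 2 ≠ 0) {p : ℕ} [hp : Fact p.Prime]
    (hp2 : p ≠ 2)
    (h : UGT {v : HeightOneSpectrum (𝓞 K) | (p : ℤ) ∣ (qv v : ℤ) + 1 - pts v A B} (3 / 8)) :
    ∃ d : 𝓞 K, ¬ IsSquare (d : K) ∧ ∀ v : HeightOneSpectrum (𝓞 K), GoodPl A B p v → ¬ SqMod d v →
      (p : ℤ) ∣ (qv v : ℤ) + 1 - pts v A B := by
  obtain ⟨δ, hδ, hG⟩ := h.freq (by norm_num)
  obtain ⟨c, hc, hcF⟩ := exists_cyc K p
  obtain ⟨e, ρ, he, hρ⟩ := exists_rep (coe_disc_ne hD) p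
  obtain ⟨ρ', hρ', -, htr, -⟩ := exists_trace_rep hD hp2 hc hcF he hρ
  obtain ⟨δ', hδ1, hδ2⟩ := exists_between hδ
  have hG' : ∃ᶠ N in atTop, δ' ≤ dens (fun v : HeightOneSpectrum (𝓞 K) =>
      (p : ℤ) ∣ (qv v : ℤ) + 1 - pts v A B ∧ GoodPl A B p v) N := by
    refine freq_good (finite_bad hD (p := p) hp.out.ne_zero) ?_ hδ2 hG
    intro v hv hv'
    exact ⟨hv, not_not.1 hv'⟩
  obtain ⟨ε, hε, ⟨y, hy⟩, hεt⟩ := exists_eps (two_ne hp2) ρ' hρ' _ hδ1 hG' (by
    rintro v ⟨hv, hvg⟩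
    obtain ⟨x, hx⟩ := Pool.Agent.W401.Frob.exists_frob v
    exact ⟨x, hx, by rw [htr v hvg x hx, av_zero]; exact hv⟩)
  obtain ⟨d, s, hd0, hs, hxs⟩ := exists_sqrt_int ε hε
  have hs0 : s ≠ 0 := by
    rintro rfl
    rw [zero_pow two_ne_zero] at hs
    have h1 : (d : K) = 0 := (map_eq_zero _).1 hs.symm
    exact hd0 (coe_eq_zero'.1 h1)
  refine ⟨d, ?_, ?_⟩
  · rintro ⟨t, ht⟩
    have h1 : s ^ 2 = (algebraMap K (AlgebraicClosure K) t) ^ 2 := by
      rw [hs, ht, map_mul, sq]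
    have h2 : y s = s := by
      rcases sq_eq_sq_iff_eq_or_eq_neg.1 h1 with h | h
      · rw [h, AlgEquiv.commutes]
      · rw [h, map_neg, AlgEquiv.commutes]
    have h3 := hxs y
    rw [h2, hy, Units.val_neg, Units.val_one, neg_smul, one_smul] at h3
    exact hs0 (self_eq_neg.1 h3)
  · intro v hv hsq
    obtain ⟨x, hx⟩ := Pool.Agent.W401.Frob.exists_frob v
    rw [← av_zero, ← htr v hv x hx]
    apply hεt
    rcases Int.units_eq_one_or (ε x) with h1 | h1
    · exfalso
      apply hsq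
      apply sqMod_of_fix hs hx
      rw [hxs, h1, Units.val_one, one_smul]
    · exact h1

/-- **(3) ⇒ (2)** -/
theorem main_three_two {A B : 𝓞 K} (hD : 4 * A ^ 3 + 27 * B ^ 2 ≠ 0) {p : ℕ} [hp : Fact p.Prime]
    {d : 𝓞 K} (hd : ¬ IsSquare (d : K))
    (h : ∀ v : HeightOneSpectrum (𝓞 K), GoodPl A B p v → d ∉ v.asIdeal → ¬ SqMod d v →
      (p : ℤ) ∣ (qv v : ℤ) + 1 - pts v A B) {c : ℝ} (hc : c < 1 / 2) :
    UGT {v : HeightOneSpectrum (𝓞 K) | (p : ℤ) ∣ (qv v : ℤ) + 1 - pts v A B} c := by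
  obtain ⟨s, hs⟩ : ∃ s : AlgebraicClosure K, s ^ 2 = algebraMap K (AlgebraicClosure K) d :=
    IsAlgClosed.exists_pow_nat_eq _ two_pos
  have hd0 : d ≠ 0 := by
    rintro rfl
    exact hd ⟨0, by simp⟩
  obtain ⟨L, hL, hlim⟩ := dens_half' hd s hs
  set Bad : Set (HeightOneSpectrum (𝓞 K)) := {v | ¬ GoodPl A B p v} ∪ {v | d ∈ v.asIdeal} with hBad
  have hBadfin : Bad.Finite := (finite_bad hD (p := p) hp.out.ne_zero).union (finite_mem hd0)
  set P : HeightOneSpectrum (𝓞 K) → Prop := fun v => ∃ x : GK K, x s = -s ∧ IsFrob v x with hP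
  have h1 : Tendsto (dens (fun v => P v ∧ v ∉ Bad)) atTop (𝓝 L) := by
    have h2 := dens_finite hBadfin
    have h3 : ∀ N, dens P N - dens (fun v => v ∈ Bad) N ≤ dens (fun v => P v ∧ v ∉ Bad) N := by
      intro N
      have h4 := Pool.Agent.W528.Ord.dens_or (fun v => P v ∧ v ∉ Bad) (fun v => v ∈ Bad) N
      have h5 : dens P N ≤ dens (fun v => (P v ∧ v ∉ Bad) ∨ v ∈ Bad) N := by
        apply Pool.Agent.W528.Ord.dens_mono
        intro v hv
        by_cases h : v ∈ Bad
        · exact Or.inr h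
        · exact Or.inl ⟨hv, h⟩
      linarith
    have h6 : ∀ N, dens (fun v => P v ∧ v ∉ Bad) N ≤ dens P N := by
      intro N
      exact Pool.Agent.W528.Ord.dens_mono (fun _ h => h.1) N
    have h8 := hlim.sub h2
    rw [sub_zero] at h8
    exact tendsto_of_tendsto_of_tendsto_of_le_of_le h8 hlim h3 h6
  have h2 : UGT {v : HeightOneSpectrum (𝓞 K) | P v ∧ v ∉ Bad} c :=
    ugt_of_tendsto h1 (lt_of_lt_of_le hc hL)
  refine h2.mono finite_absNorm ?_
  rintro v ⟨⟨x, hxs, hx⟩, hvB⟩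
  rw [hBad, Set.mem_union, not_or] at hvB
  have hv1 : GoodPl A B p v := by
    by_contra h; exact hvB.1 h
  exact h v hv1 hvB.2 (fix_of_sqMod hs hx hv1.1 hvB.2 hxs)

end Pool.Agent.H502.TZ
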