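import Pool.Agent.H502.TZ.B6

/-!
# Large image and the elements of trace zero
-/

set_option autoImplicit false

namespace Pool.Agent.H502.TZ

open Pool.Agent.H901R3.MS Pool.Agent.Q46.FR Pool.Agent.Y673.Loc NumberField IsDedekindDomain
open Pool.Agent.W401.Cheb Pool.Agent.W275.FM Pool.Agent.W275.FMK Pool.Agent.Y673.FM
open WeierstrassCurve Matrix Filter Topology Pool.Agent.H502.SM Pool.Agent.H502.EC

variable {K : Type} [Field K] [NumberField K]

theorem exists_char {A B : 𝓞 K} (hD : 4 * A ^ 3 + 27 * B ^ 2 ≠ 0) {p : ℕ} [hp : Fact p.Prime]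
    (hp2 : p ≠ 2) {ρ' : GK K →* GL (Fin 2) (ZMod p)} (hρ' : IsOpen (ρ'.ker : Set (GK K)))
    (htr : ∀ v, GoodPl A B p v → ∀ x, IsFrob v x → (ρ' x).val.trace = av A B p v)
    (h : UGT {v : HeightOneSpectrum (𝓞 K) | (p : ℤ) ∣ (qv v : ℤ) + 1 - pts v A B} (3 / 8)) :
    ∃ ε : GK K →* ℤˣ, IsOpen (ε.ker : Set (GK K)) ∧ (∃ y, ε y = -1) ∧
      ∀ x, ε x = -1 → (ρ' x).val.trace = 0 := by
  obtain ⟨δ, hδ, hG⟩ := h.freq (by norm_num)
  obtain ⟨δ', hδ1, hδ2⟩ := exists_between hδ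
  have hG' : ∃ᶠ N in atTop, δ' ≤ dens (fun v : HeightOneSpectrum (𝓞 K) =>
      (p : ℤ) ∣ (qv v : ℤ) + 1 - pts v A B ∧ GoodPl A B p v) N := by
    refine freq_good (finite_bad hD (p := p) hp.out.ne_zero) ?_ hδ2 hG
    intro v hv hv'
    exact ⟨hv, not_not.1 hv'⟩
  exact exists_eps (two_ne hp2) ρ' hρ' _ hδ1 hG' (by
    rintro v ⟨hv, hvg⟩
    obtain ⟨x, hx⟩ := Pool.Agent.W401.Frob.exists_frob v
    exact ⟨x, hx, by rw [htr v hvg x hx, av_zero]; exact hv⟩)

/-- with a large image the density is at most `3/8` -/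
theorem main_large {A B : 𝓞 K} (hD : 4 * A ^ 3 + 27 * B ^ 2 ≠ 0) {p : ℕ} [hp : Fact p.Prime]
    (hp2 : p ≠ 2) (hSL : HasSLp (A : K) (B : K) p) :
    ¬ UGT {v : HeightOneSpectrum (𝓞 K) | (p : ℤ) ∣ (qv v : ℤ) + 1 - pts v A B} (3 / 8) := by
  intro h
  obtain ⟨c, hc, hcF⟩ := exists_cyc K p
  obtain ⟨e, ρ, he, hρ⟩ := exists_rep (coe_disc_ne hD) p
  obtain ⟨ρ', hρ', -, htr, hor⟩ := exists_trace_rep hD hp2 hc hcF he hρ
  have hall := hSL.mat he
  have hρρ : ρ' = ρ := by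
    rcases hor with h1 | ⟨h1, -⟩
    · exact h1
    · exfalso
      obtain ⟨x, y, hxy⟩ := noncomm hall
      exact hxy (h1 x y)
  obtain ⟨ε, -, ⟨y, hy⟩, hεt⟩ := exists_char hD hp2 hρ' htr h
  rw [hρρ] at hεt
  set X := (ρ y).val with hX
  have key : ∀ M : Matrix (Fin 2) (Fin 2) (ZMod p), M.det = 1 → M.trace ≠ 0 → (X * M).trace = 0 := by
    intro M hM hMt
    obtain ⟨x, hx⟩ := hall M hM
    rcases Int.units_eq_one_or (ε x) with h1 | h1
    · have h3 := hεt (y * x) (by rw [map_mul, hy, h1]; norm_num)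
      rw [map_mul, Units.val_mul, hx] at h3
      exact h3
    · exact absurd (by rw [← hx]; exact hεt x h1) hMt
  have h2 := two_ne hp2
  have k0 := key 1 (by simp) (by
    rw [Matrix.trace_fin_two]
    simp
    intro h
    apply h2
    linear_combination h)
  have k1 := key !![1, 1; 0, 1] (by simp [Matrix.det_fin_two]) (by
    rw [Matrix.trace_fin_two]
    simp
    intro h
    apply h2
    linear_combination h)
  have k2 := key !![1, 0; 1, 1] (by simp [Matrix.det_fin_two]) (by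
    rw [Matrix.trace_fin_two]
    simp
    intro h
    apply h2
    linear_combination h)
  have k3 := key !![0, 1; -1, 1] (by simp [Matrix.det_fin_two]) (by
    rw [Matrix.trace_fin_two]
    simp)
  simp [Matrix.trace_fin_two, Matrix.mul_apply, Fin.sum_univ_two] at k0 k1 k2 k3
  have e10 : X 1 0 = 0 := by linear_combination k1 - k0
  have e01 : X 0 1 = 0 := by linear_combination k2 - k0
  have e11 : X 1 1 = 0 := by linear_combination k3 + e01 - e10
  have hdet : X.det = 0 := by rw [Matrix.det_fin_two, e10, e11]; ring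
  have hdet' := Pool.Agent.H502.SM.mm_det_ne ρ y
  exact hdet' hdet

end Pool.Agent.H502.TZ
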