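import Pool.Agent.H502.TZ.B4

/-!
# Groups of 2 × 2 matrices with many elements with the eigenvalue one
-/

set_option autoImplicit false

namespace Pool.Agent.H502.TZ

open Matrix

variable {k : Type*} [Field k] {G : Type*} [Group G] (ρ : G →* GL (Fin 2) k)

/-- `det (1 - g)` -/
def ff (g : G) : k := 1 - (A ρ g).trace + (A ρ g).det

theorem A_det_mul (x y : G) : (A ρ (x * y)).det = (A ρ x).det * (A ρ y).det := by
  rw [A_mul, Matrix.det_mul]

theorem tr_rec (x g : G) : (A ρ (x * g * g)).trace =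
    (A ρ g).trace * (A ρ (x * g)).trace - (A ρ g).det * (A ρ x).trace := by
  have h1 : A ρ (x * g * g) = (A ρ g).trace • A ρ (x * g) - (A ρ g).det • A ρ x := by
    rw [A_mul, A_mul, mul_assoc, ch, mul_sub, mul_smul_comm, mul_smul_comm, mul_one]
  rw [h1, Matrix.trace_sub, Matrix.trace_smul, Matrix.trace_smul, smul_eq_mul, smul_eq_mul]

/-- three translates -/
theorem three {x g : G} (h0 : ff ρ x = 0) (h1 : ff ρ (x * g) = 0) (h2 : ff ρ (x * g * g) = 0) :
    ff ρ g * (1 + (A ρ x).det * (A ρ g).det) = 0 := by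
  have r := tr_rec ρ x g
  have d1 := A_det_mul ρ x g
  have d2 := A_det_mul ρ (x * g) g
  unfold ff at h0 h1 h2 ⊢
  rw [d1] at h1 d2
  rw [d2, r] at h2
  have e0 : (A ρ x).trace = 1 + (A ρ x).det := by linear_combination -h0
  have e1 : (A ρ (x * g)).trace = 1 + (A ρ x).det * (A ρ g).det := by linear_combination -h1
  rw [e0, e1] at h2
  linear_combination h2

theorem four {x g : G} (h0 : ff ρ x = 0) (h1 : ff ρ (x * g) = 0) (h2 : ff ρ (x * g * g) = 0)
    (h3 : ff ρ (x * g * g * g) = 0) (hg : ff ρ g ≠ 0) : (A ρ g).det = 1 := by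
  have e1 := (mul_eq_zero.1 (three ρ h0 h1 h2)).resolve_left hg
  have e2 := (mul_eq_zero.1 (three ρ h1 h2 h3)).resolve_left hg
  rw [A_det_mul] at e2
  have hx := A_det ρ x
  have hd := A_det ρ g
  have e3 : ((A ρ x).det * (A ρ g).det) * ((A ρ g).det - 1) = 0 := by linear_combination e2 - e1
  rcases mul_eq_zero.1 e3 with h | h
  · exact absurd h (mul_ne_zero hx hd)
  · exact sub_eq_zero.1 h

/-- the product of two commuting unipotent matrices -/
theorem unip {h u : G} (h2 : (2 : k) ≠ 0) (hh : (A ρ h).trace = 2) (hu : (A ρ u).trace = 2)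
    (hd : (A ρ h).det = 1) (hc : u ∈ Cg ρ h) : (A ρ (h⁻¹ * u)).trace = 2 := by
  have hinv : A ρ h⁻¹ = (2 : k) • 1 - A ρ h := by
    have e1 : ((2 : k) • 1 - A ρ h) * A ρ h = 1 := by
      rw [sub_mul, smul_mul_assoc, one_mul, ch, hh, hd, one_smul]; abel
    calc A ρ h⁻¹ = ((2 : k) • 1 - A ρ h) * A ρ h * A ρ h⁻¹ := by rw [e1, one_mul]
      _ = _ := by rw [mul_assoc, A_mul_inv, mul_one]
  have e2 : (A ρ (h⁻¹ * u)).trace = 4 - (A ρ h * A ρ u).trace := by
    rw [A_mul, hinv, sub_mul, smul_mul_assoc, one_mul, Matrix.trace_sub, Matrix.trace_smul, hu,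
      smul_eq_mul]
    ring
  rw [e2]
  by_cases hs : IsSc (A ρ h)
  · obtain ⟨c, hcc⟩ := hs
    have h3 : c = 1 := by
      have := hh
      rw [hcc, trace_smul_one] at this
      have h4 : 2 * (c - 1) = 0 := by linear_combination this
      exact sub_eq_zero.1 ((mul_eq_zero.1 h4).resolve_left h2)
    rw [hcc, h3, one_smul, one_mul, hu]
    norm_num
  · obtain ⟨a, b, hab⟩ := comm_span hs hc
    have h3 : a = 1 - b := by
      have := hu
      rw [hab, Matrix.trace_add, trace_smul_one, Matrix.trace_smul, hh, smul_eq_mul] at this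
      have h4 : 2 * (a - (1 - b)) = 0 := by linear_combination this
      exact sub_eq_zero.1 ((mul_eq_zero.1 h4).resolve_left h2)
    rw [hab, h3, mul_add, mul_smul_comm, mul_smul_comm, mul_one, ch, hh, hd, Matrix.trace_add,
      Matrix.trace_smul, Matrix.trace_smul, Matrix.trace_sub, Matrix.trace_smul, hh, trace_smul_one,
      smul_eq_mul, smul_eq_mul, smul_eq_mul]
    ring

section fin

variable [Fintype G]

/-- the elements with the eigenvalue one -/
def SS : Set G := {g | ff ρ g = 0}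

/-- elements of determinant one -/
def DetOne : Subgroup G where
  carrier := {g | (A ρ g).det = 1}
  one_mem' := by
    show (A ρ 1).det = 1
    rw [A_one, Matrix.det_one]
  mul_mem' := by
    intro x y hx hy
    show (A ρ (x * y)).det = 1
    rw [A_det_mul, show (A ρ x).det = 1 from hx, show (A ρ y).det = 1 from hy, one_mul]
  inv_mem' := by
    intro x hx
    show (A ρ x⁻¹).det = 1
    have h1 := congrArg Matrix.det (A_inv_mul ρ x)
    rw [Matrix.det_mul, show (A ρ x).det = 1 from hx, mul_one, Matrix.det_one] at h1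
    exact h1

omit [Fintype G] in
theorem mem_DetOne {g : G} : g ∈ DetOne ρ ↔ (A ρ g).det = 1 := Iff.rfl

omit [Group G] in
theorem sum_ind_compl (S : Set G) : ∑ x, ind Sᶜ x + Nat.card S = Nat.card G := by
  classical
  have h1 : ∀ x, ind Sᶜ x + ind S x = 1 := by
    intro x
    by_cases hx : x ∈ S
    · rw [ind_of_mem hx, ind_of_not_mem (S := Sᶜ) (x := x) (fun h => h hx)]
    · rw [ind_of_not_mem hx, ind_of_mem (show x ∈ Sᶜ from hx)]
  have h2 := Finset.sum_congr (rfl : (Finset.univ : Finset G) = Finset.univ) (fun x _ => h1 x)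
  rw [Finset.sum_add_distrib, sum_ind S, Finset.sum_const, Finset.card_univ, smul_eq_mul, mul_one,
    ← Nat.card_eq_fintype_card] at h2
  exact h2

theorem sum_shift (f : G → ℕ) (g : G) : ∑ x, f (x * g) = ∑ x, f x :=
  Fintype.sum_equiv (Equiv.mulRight g) _ _ (fun _ => rfl)

/-- four translates have a common point -/
theorem exists_four (h : 3 * Nat.card G < 4 * Nat.card (SS ρ)) (g : G) :
    ∃ x, x ∈ SS ρ ∧ x * g ∈ SS ρ ∧ x * g * g ∈ SS ρ ∧ x * g * g * g ∈ SS ρ := by
  classical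
  by_contra hno
  push Not at hno
  set S := SS ρ with hS
  have h1 : ∀ x : G, 1 ≤ ind Sᶜ x + ind Sᶜ (x * g) + ind Sᶜ (x * g * g) + ind Sᶜ (x * g * g * g) := by
    intro x
    by_cases a0 : x ∈ S
    · by_cases a1 : x * g ∈ S
      · by_cases a2 : x * g * g ∈ S
        · have a3 := hno x a0 a1 a2
          rw [ind_of_mem (show x * g * g * g ∈ Sᶜ from a3)]
          omega
        · rw [ind_of_mem (show x * g * g ∈ Sᶜ from a2)]
          omega
      · rw [ind_of_mem (show x * g ∈ Sᶜ from a1)]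
        omega
    · rw [ind_of_mem (show x ∈ Sᶜ from a0)]
      omega
  have h2 := Finset.sum_le_sum (s := Finset.univ) (fun x _ => h1 x)
  rw [Finset.sum_add_distrib, Finset.sum_add_distrib, Finset.sum_add_distrib, Finset.sum_const,
    Finset.card_univ, smul_eq_mul, mul_one, ← Nat.card_eq_fintype_card] at h2
  have s1 : ∑ x, ind Sᶜ (x * g) = ∑ x, ind Sᶜ x := sum_shift (ind Sᶜ) g
  have s2 : ∑ x, ind Sᶜ (x * g * g) = ∑ x, ind Sᶜ x := by
    rw [sum_shift (fun x => ind Sᶜ (x * g)) g, s1]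
  have s3 : ∑ x, ind Sᶜ (x * g * g * g) = ∑ x, ind Sᶜ x := by
    rw [sum_shift (fun x => ind Sᶜ (x * g * g)) g, s2]
  rw [s1, s2, s3] at h2
  have h3 := sum_ind_compl S
  omega

/-- **Theorem.** A finite group of invertible `2 × 2` matrices in characteristic not two in which more
than `3/4` of the elements have the eigenvalue one consists of such elements. -/
theorem all_eigen (h2 : (2 : k) ≠ 0) (h : 3 * Nat.card G < 4 * Nat.card (SS ρ)) (g₀ : G) :
    ff ρ g₀ = 0 := by
  classical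
  by_contra hg0
  have hdet : (A ρ g₀).det = 1 := by
    obtain ⟨x, a0, a1, a2, a3⟩ := exists_four ρ h g₀
    exact four ρ a0 a1 a2 a3 hg0
  set S := SS ρ with hS
  -- the elements of determinant `-1`
  set V : Set G := {x | (A ρ x).det = -1} with hV
  have hVg : ∀ x : G, x * g₀ ∈ V ↔ x ∈ V := by
    intro x
    rw [hV, Set.mem_ofPred_eq, Set.mem_ofPred_eq, A_det_mul, hdet, mul_one]
  have hthree : ∀ x : G, x ∈ S → x * g₀ ∈ S → x * g₀ * g₀ ∈ S → x ∈ V := by
    intro x a0 a1 a2
    have e1 := (mul_eq_zero.1 (three ρ a0 a1 a2)).resolve_left hg0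
    rw [hdet, mul_one] at e1
    show (A ρ x).det = -1
    linear_combination e1
  -- counting outside `V`
  have h3 : 3 * ∑ x, ind (S ∩ Vᶜ) x ≤ 2 * ∑ x, ind Vᶜ x := by
    have h4 : ∀ x : G, ind (S ∩ Vᶜ) x + ind (S ∩ Vᶜ) (x * g₀) + ind (S ∩ Vᶜ) (x * g₀ * g₀) ≤
        2 * ind Vᶜ x := by
      intro x
      have hle : ∀ y, ind (S ∩ Vᶜ) y ≤ 1 := by
        intro y
        unfold ind
        split_ifs <;> omega
      by_cases hx : x ∈ V
      · have hx1 : x * g₀ ∈ V := (hVg x).2 hx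
        have hx2 : x * g₀ * g₀ ∈ V := (hVg _).2 hx1
        rw [ind_of_not_mem (S := S ∩ Vᶜ) (x := x) (fun h => h.2 hx),
          ind_of_not_mem (S := S ∩ Vᶜ) (x := x * g₀) (fun h => h.2 hx1),
          ind_of_not_mem (S := S ∩ Vᶜ) (x := x * g₀ * g₀) (fun h => h.2 hx2)]
        omega
      · rw [ind_of_mem (show x ∈ Vᶜ from hx)]
        by_cases a0 : x ∈ S
        · by_cases a1 : x * g₀ ∈ S
          · have a2 : x * g₀ * g₀ ∉ S := fun a2 => hx (hthree x a0 a1 a2)
            rw [ind_of_not_mem (S := S ∩ Vᶜ) (x := x * g₀ * g₀) (fun h => a2 h.1)]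
            have := hle x
            have := hle (x * g₀)
            omega
          · rw [ind_of_not_mem (S := S ∩ Vᶜ) (x := x * g₀) (fun h => a1 h.1)]
            have := hle x
            have := hle (x * g₀ * g₀)
            omega
        · rw [ind_of_not_mem (S := S ∩ Vᶜ) (x := x) (fun h => a0 h.1)]
          have := hle (x * g₀)
          have := hle (x * g₀ * g₀)
          omega
    have h5 := Finset.sum_le_sum (s := Finset.univ) (fun x _ => h4 x)
    rw [Finset.sum_add_distrib, Finset.sum_add_distrib, ← Finset.mul_sum] at h5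
    have s1 : ∑ x, ind (S ∩ Vᶜ) (x * g₀) = ∑ x, ind (S ∩ Vᶜ) x := sum_shift (ind (S ∩ Vᶜ)) g₀
    have s2 : ∑ x, ind (S ∩ Vᶜ) (x * g₀ * g₀) = ∑ x, ind (S ∩ Vᶜ) x := by
      rw [sum_shift (fun x => ind (S ∩ Vᶜ) (x * g₀)) g₀, s1]
    rw [s1, s2] at h5
    omega
  have h6 : ∑ x, ind (S ∩ Vᶜ) x + ∑ x, ind (S ∩ V) x = Nat.card S := by
    rw [← Finset.sum_add_distrib, ← sum_ind S]
    apply Finset.sum_congr rfl
    intro x _
    by_cases hx : x ∈ V
    · by_cases a0 : x ∈ S
      · rw [ind_of_not_mem (S := S ∩ Vᶜ) (fun h => h.2 hx), ind_of_mem (show x ∈ S ∩ V from ⟨a0, hx⟩),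
          ind_of_mem a0]
      · rw [ind_of_not_mem (S := S ∩ Vᶜ) (fun h => h.2 hx), ind_of_not_mem (S := S ∩ V) (fun h => a0 h.1),
          ind_of_not_mem a0]
    · by_cases a0 : x ∈ S
      · rw [ind_of_mem (show x ∈ S ∩ Vᶜ from ⟨a0, hx⟩), ind_of_not_mem (S := S ∩ V) (fun h => hx h.2),
          ind_of_mem a0]
      · rw [ind_of_not_mem (S := S ∩ Vᶜ) (fun h => a0 h.1), ind_of_not_mem (S := S ∩ V) (fun h => a0 h.1),
          ind_of_not_mem a0]
  have h7 : ∑ x, ind (S ∩ V) x ≤ ∑ x, ind V x := by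
    apply Finset.sum_le_sum
    intro x _
    by_cases hx : x ∈ V
    · rw [ind_of_mem hx]
      unfold ind
      split_ifs <;> omega
    · rw [ind_of_not_mem (S := S ∩ V) (fun h => hx h.2)]
      omega
  have h8 := sum_ind_compl V
  have h9 := sum_ind V
  -- `|V| > |G| / 4`
  have hV4 : Nat.card G < 4 * Nat.card V := by omega
  obtain ⟨s, hs⟩ : V.Nonempty := by
    rw [Set.nonempty_iff_ne_empty]
    intro he
    rw [he] at hV4
    simp at hV4
  have hs' : (A ρ s).det = -1 := hs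
  -- `|V| = |G₁|`
  have hVcard : Nat.card V = Nat.card (DetOne ρ) := by
    refine Nat.card_congr ⟨fun x => ⟨s⁻¹ * x.1, ?_⟩, fun y => ⟨s * y.1, ?_⟩, ?_, ?_⟩
    · rw [mem_DetOne]
      have e1 : (A ρ x.1).det = -1 := x.2
      have e2 : (A ρ s).det * (A ρ (s⁻¹ * x.1)).det = (A ρ x.1).det := by
        rw [← A_det_mul, mul_inv_cancel_left]
      rw [hs', e1] at e2
      linear_combination -e2
    · show (A ρ (s * y.1)).det = -1
      rw [A_det_mul, hs', (mem_DetOne ρ).1 y.2, mul_one]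
    · intro x
      exact Subtype.ext (mul_inv_cancel_left _ _)
    · intro y
      exact Subtype.ext (inv_mul_cancel_left _ _)
  -- the index of `G₁` is two
  have hne : (-1 : k) ≠ 1 := by
    intro h
    apply h2
    linear_combination -h
  have hidx := (DetOne ρ).card_mul_index
  have hidx4 : (DetOne ρ).index < 4 := by
    by_contra hc
    have : 4 ≤ (DetOne ρ).index := by omega
    have h10 : Nat.card (DetOne ρ) * 4 ≤ Nat.card (DetOne ρ) * (DetOne ρ).index :=
      Nat.mul_le_mul_left _ this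
    omega
  have hnorm : (DetOne ρ).Normal := by
    constructor
    intro x hx y
    rw [mem_DetOne] at hx ⊢
    rw [A_det_mul, A_det_mul, hx, mul_one, ← A_det_mul, mul_inv_cancel, A_one, Matrix.det_one]
  have hsG : s ∉ DetOne ρ := by
    rw [mem_DetOne, hs']
    exact hne
  have hidx2 : (DetOne ρ).index = 2 := by
    have hord : orderOf (QuotientGroup.mk s : G ⧸ DetOne ρ) = 2 := by
      apply orderOf_eq_prime
      · rw [← QuotientGroup.mk_pow, QuotientGroup.eq_one_iff, mem_DetOne, sq, A_det_mul, hs']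
        norm_num
      · rw [Ne, QuotientGroup.eq_one_iff]
        exact hsG
    have hdvd : 2 ∣ (DetOne ρ).index := by
      rw [← hord]
      exact orderOf_dvd_natCard _
    have h0 : (DetOne ρ).index ≠ 0 := Subgroup.FiniteIndex.index_ne_zero
    omega
  have hdet2 : ∀ x : G, x ∉ DetOne ρ → x ∈ V := by
    intro x hx
    have h10 : s⁻¹ * x ∈ DetOne ρ := by
      rw [Subgroup.mul_mem_iff_of_index_two hidx2, (DetOne ρ).inv_mem_iff]
      exact ⟨fun h => absurd h hsG, fun h => absurd h hx⟩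
    rw [mem_DetOne] at h10
    show (A ρ x).det = -1
    calc (A ρ x).det = (A ρ s).det * (A ρ (s⁻¹ * x)).det := by rw [← A_det_mul, mul_inv_cancel_left]
      _ = -1 := by rw [hs', h10, mul_one]
  rw [hidx2] at hidx
  set n := Nat.card (DetOne ρ) with hn
  -- `S ∩ V` has more than `5 n / 6` elements, `S ∩ G₁` more than `n / 2`
  have hSV : 5 * n < 6 * ∑ x, ind (S ∩ V) x := by omega
  have hS1 : n < 2 * ∑ x, ind (S ∩ Vᶜ) x := by omega
  have hV2 : ∑ x, ind V x = n := by rw [h9, hVcard]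
  have hVc2 : ∑ x, ind Vᶜ x = n := by omega
  have hG1V : ∀ x : G, x ∈ DetOne ρ → x ∉ V := by
    intro x hx hxV
    have e1 : (A ρ x).det = -1 := hxV
    rw [(mem_DetOne ρ).1 hx] at e1
    exact hne e1.symm
  -- `G₁` is commutative
  have hcomm : ∀ g : G, g ∈ DetOne ρ → DetOne ρ ≤ Cg ρ g := by
    intro g hg
    set Q : Set G := {x | x ∈ S ∩ V ∧ x * g ∈ S ∩ V} with hQ
    have hQP : ∀ x ∈ Q, x ∈ Pg ρ g := by
      rintro x ⟨⟨a0, a1⟩, a2, a3⟩
      have t : ∀ y : G, y ∈ S → y ∈ V → y ∈ Tz ρ := by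
        intro y hy hy'
        have e1 : 1 - (A ρ y).trace + (A ρ y).det = 0 := hy
        have e2 : (A ρ y).det = -1 := hy'
        rw [mem_Tz]
        linear_combination -e1 + e2
      exact ⟨t x a0 a1, t _ a2 a3⟩
    have hQcard : 2 * n < 3 * Nat.card Q := by
      have h11 : ∀ x : G, ind (S ∩ V) x + ind (S ∩ V) (x * g) ≤ ind V x + ind Q x := by
        intro x
        have hVg' : x * g ∈ V ↔ x ∈ V := by
          rw [hV, Set.mem_ofPred_eq, Set.mem_ofPred_eq, A_det_mul, (mem_DetOne ρ).1 hg, mul_one]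
        by_cases a0 : x ∈ S ∩ V
        · by_cases a1 : x * g ∈ S ∩ V
          · rw [ind_of_mem a0, ind_of_mem a1, ind_of_mem a0.2, ind_of_mem (show x ∈ Q from ⟨a0, a1⟩)]
          · rw [ind_of_mem a0, ind_of_not_mem a1, ind_of_mem a0.2]
            omega
        · by_cases a1 : x * g ∈ S ∩ V
          · rw [ind_of_not_mem a0, ind_of_mem a1, ind_of_mem (hVg'.1 a1.2)]
            omega
          · rw [ind_of_not_mem a0, ind_of_not_mem a1]
            omega
      have h12 := Finset.sum_le_sum (s := Finset.univ) (fun x _ => h11 x)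
      rw [Finset.sum_add_distrib, Finset.sum_add_distrib, sum_shift (ind (S ∩ V)) g, hV2,
        sum_ind Q] at h12
      omega
    obtain ⟨x₀, hx₀⟩ : Q.Nonempty := by
      rw [Set.nonempty_iff_ne_empty]
      intro he
      rw [he] at hQcard
      simp at hQcard
    have hmap : ∀ x : Q, x₀⁻¹ * x.1 ∈ Cg ρ g ⊓ DetOne ρ := by
      intro x
      refine ⟨Pg_inv_mul ρ (hQP _ hx₀) (hQP _ x.2), ?_⟩
      have e1 : (A ρ x.1).det = -1 := x.2.1.2
      have e3 : (A ρ x₀).det = -1 := hx₀.1.2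
      have e2 : (A ρ x₀).det * (A ρ (x₀⁻¹ * x.1)).det = (A ρ x.1).det := by
        rw [← A_det_mul, mul_inv_cancel_left]
      show (A ρ (x₀⁻¹ * x.1)).det = 1
      rw [e3, e1] at e2
      linear_combination -e2
    have hle := Nat.card_le_card_of_injective
      (fun x : Q => (⟨x₀⁻¹ * x.1, hmap x⟩ : (Cg ρ g ⊓ DetOne ρ : Subgroup G))) (by
        intro a b hab
        have := congrArg Subtype.val hab
        exact Subtype.ext (mul_left_cancel this))
    have hrel := card_mul (inf_le_right : Cg ρ g ⊓ DetOne ρ ≤ DetOne ρ)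
    rw [← hn] at hrel
    have h13 : (Cg ρ g ⊓ DetOne ρ).relIndex (DetOne ρ) = 1 := by
      have h14 : (Cg ρ g ⊓ DetOne ρ).relIndex (DetOne ρ) ≠ 0 := by
        intro h0
        rw [h0, zero_mul] at hrel
        have : 0 < n := Nat.card_pos
        omega
      by_contra h15
      have h16 : 2 ≤ (Cg ρ g ⊓ DetOne ρ).relIndex (DetOne ρ) := by omega
      have h17 : 2 * Nat.card (Cg ρ g ⊓ DetOne ρ : Subgroup G) ≤ n := by
        rw [← hrel]
        exact Nat.mul_le_mul_right _ h16
      omega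
    exact (Subgroup.relIndex_eq_one.1 h13).trans inf_le_left
  -- the conclusion
  obtain ⟨u, hu1, hu2⟩ : ∃ u : G, u ∈ S ∩ Vᶜ ∧ u * g₀ ∈ S ∩ Vᶜ := by
    by_contra hno
    push Not at hno
    have h11 : ∀ x : G, ind (S ∩ Vᶜ) x + ind (S ∩ Vᶜ) (x * g₀) ≤ ind Vᶜ x := by
      intro x
      have hVg' : x * g₀ ∈ V ↔ x ∈ V := hVg x
      by_cases a0 : x ∈ S ∩ Vᶜ
      · rw [ind_of_mem a0, ind_of_not_mem (hno x a0), ind_of_mem a0.2]
      · by_cases a1 : x * g₀ ∈ S ∩ Vᶜ
        · rw [ind_of_not_mem a0, ind_of_mem a1, ind_of_mem (show x ∈ Vᶜ from fun h => a1.2 (hVg'.2 h))]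
        · rw [ind_of_not_mem a0, ind_of_not_mem a1]
          omega
    have h12 := Finset.sum_le_sum (s := Finset.univ) (fun x _ => h11 x)
    rw [Finset.sum_add_distrib, sum_shift (ind (S ∩ Vᶜ)) g₀, hVc2] at h12
    omega
  have hD : ∀ x : G, x ∉ V → x ∈ DetOne ρ := by
    intro x hx
    by_contra h
    exact hx (hdet2 x h)
  have hu1' : u ∈ DetOne ρ := hD u hu1.2
  have hu2' : u * g₀ ∈ DetOne ρ := hD _ hu2.2
  have ht : ∀ y : G, y ∈ S → y ∈ DetOne ρ → (A ρ y).trace = 2 := by
    intro y hy hy'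
    have e1 : 1 - (A ρ y).trace + (A ρ y).det = 0 := hy
    rw [(mem_DetOne ρ).1 hy'] at e1
    linear_combination -e1
  have hfin := unip ρ h2 (ht u hu1.1 hu1') (ht _ hu2.1 hu2') ((mem_DetOne ρ).1 hu1')
    (hcomm u hu1' hu2')
  rw [inv_mul_cancel_left] at hfin
  apply hg0
  unfold ff
  rw [hfin, hdet]
  ring

end fin

end Pool.Agent.H502.TZ
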