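import Pool.Agent.H502.TZ.B7
import Pool.Agent.H502.TZ.B8

/-!
# Numbers of points divisible by `p` at many places
-/

set_option autoImplicit false

namespace Pool.Agent.H502.TZ

open Pool.Agent.H901R3.MS Pool.Agent.Q46.FR Pool.Agent.Y673.Loc NumberField IsDedekindDomain
open Pool.Agent.W401.Cheb Pool.Agent.W275.FM Pool.Agent.W275.FMK Pool.Agent.Y673.FM
open WeierstrassCurve Matrix Filter Topology Pool.Agent.H502.SM Pool.Agent.H502.EC

variable {K : Type} [Field K] [NumberField K]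

theorem all_eigen_nf {k : Type*} [Field k] (h2 : (2 : k) ≠ 0) (ρ : GK K →* GL (Fin 2) k)
    (hρ : IsOpen (ρ.ker : Set (GK K))) (Good : HeightOneSpectrum (𝓞 K) → Prop) {δ : ℝ}
    (hδ : 3 / 4 < δ) (hG : ∃ᶠ N in atTop, δ ≤ dens Good N)
    (h : ∀ v, Good v → ∃ x, IsFrob v x ∧ 1 - (ρ x).val.trace + (ρ x).val.det = 0) :
    ∀ x : GK K, 1 - (ρ x).val.trace + (ρ x).val.det = 0 := by
  classical
  have hfin : Finite (GK K ⧸ ρ.ker) := Subgroup.quotient_finite_of_isOpen _ hρ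
  let _ : Fintype (GK K ⧸ ρ.ker) := Fintype.ofFinite _
  set C : Set (GK K) := {x | 1 - (ρ x).val.trace + (ρ x).val.det = 0} with hC
  have h1 : ∀ s ∈ C, ∀ τ : GK K, τ * s * τ⁻¹ ∈ C := by
    intro s hs τ
    have e1 := trace_conj ρ τ s
    have e2 : (ρ (τ * s * τ⁻¹)).val.det = (ρ s).val.det := by
      have hinv : (ρ τ).val.det * (ρ τ⁻¹).val.det = 1 := by
        rw [← Matrix.det_mul, ← Units.val_mul, ← map_mul, mul_inv_cancel, map_one, Units.val_one,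
          Matrix.det_one]
      rw [map_mul, map_mul, Units.val_mul, Units.val_mul, Matrix.det_mul, Matrix.det_mul]
      linear_combination (ρ s).val.det * hinv
    change 1 - (ρ (τ * s * τ⁻¹)).val.trace + (ρ (τ * s * τ⁻¹)).val.det = 0
    rw [e2]
    have e3 : (ρ (τ * s * τ⁻¹)).val.trace = (ρ s).val.trace := e1
    rw [e3]
    exact hs
  have h3 : ∀ s ∈ C, ∀ u ∈ ρ.ker, s * u ∈ C := by
    intro s hs u hu
    change 1 - (ρ (s * u)).val.trace + (ρ (s * u)).val.det = 0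
    rw [map_mul, (MonoidHom.mem_ker).mp hu, mul_one]
    exact hs
  have key := freq_card ρ.ker hρ C h1 h3 Good hG (by
    intro v hv
    obtain ⟨x, hx, hx'⟩ := h v hv
    exact ⟨x, hx', hx⟩)
  let ρ' : GK K ⧸ ρ.ker →* GL (Fin 2) k := QuotientGroup.lift ρ.ker ρ le_rfl
  have himg : ((QuotientGroup.mk : GK K → GK K ⧸ ρ.ker) '' C) ⊆ SS ρ' := by
    rintro _ ⟨x, hx, rfl⟩
    exact hx
  have hcard : (((QuotientGroup.mk : GK K → GK K ⧸ ρ.ker) '' C).ncard : ℝ) ≤ (Nat.card (SS ρ') : ℝ) := by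
    exact_mod_cast Set.ncard_le_ncard himg (Set.toFinite _)
  have hpos : (0 : ℝ) < (Nat.card (GK K ⧸ ρ.ker) : ℝ) := by exact_mod_cast Nat.card_pos
  have hlt : 3 * Nat.card (GK K ⧸ ρ.ker) < 4 * Nat.card (SS ρ') := by
    have h4 : (3 : ℝ) * Nat.card (GK K ⧸ ρ.ker) < 4 * Nat.card (SS ρ') := by
      have := mul_lt_mul_of_pos_right hδ hpos
      linarith
    exact_mod_cast h4
  intro x
  exact all_eigen ρ' h2 hlt (QuotientGroup.mk x)

theorem main_katz {A B : 𝓞 K} (hD : 4 * A ^ 3 + 27 * B ^ 2 ≠ 0) {p : ℕ} [hp : Fact p.Prime]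
    (hp2 : p ≠ 2)
    (h : UGT {v : HeightOneSpectrum (𝓞 K) | (p : ℤ) ∣ (pts v A B : ℤ)} (3 / 4)) :
    ∀ v : HeightOneSpectrum (𝓞 K), GoodPl A B p v → (p : ℤ) ∣ (pts v A B : ℤ) := by
  obtain ⟨δ, hδ, hG⟩ := h.freq (by norm_num)
  obtain ⟨c, hc, hcF⟩ := exists_cyc K p
  obtain ⟨e, ρ, he, hρ⟩ := exists_rep (coe_disc_ne hD) p
  obtain ⟨ρ', hρ', hdet, htr, -⟩ := exists_trace_rep hD hp2 hc hcF he hρ
  obtain ⟨δ', hδ1, hδ2⟩ := exists_between hδ
  have hG' : ∃ᶠ N in atTop, δ' ≤ dens (fun v : HeightOneSpectrum (𝓞 K) =>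
      (p : ℤ) ∣ (pts v A B : ℤ) ∧ GoodPl A B p v) N := by
    refine freq_good (finite_bad hD (p := p) hp.out.ne_zero) ?_ hδ2 hG
    intro v hv hv'
    exact ⟨hv, not_not.1 hv'⟩
  have hval : ∀ v, GoodPl A B p v → ∀ x, IsFrob v x →
      1 - (ρ' x).val.trace + (ρ' x).val.det = (((pts v A B : ℤ) : ℤ) : ZMod p) := by
    intro v hv x hx
    rw [htr v hv x hx, hdet, hcF v hv.2.2 x hx]
    unfold av
    push_cast
    ring
  have hall := all_eigen_nf (two_ne hp2) ρ' hρ' _ hδ1 hG' (by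
    rintro v ⟨hv, hvg⟩
    obtain ⟨x, hx⟩ := Pool.Agent.W401.Frob.exists_frob v
    refine ⟨x, hx, ?_⟩
    rw [hval v hvg x hx, ZMod.intCast_zmod_eq_zero_iff_dvd]
    exact hv)
  intro v hv
  obtain ⟨x, hx⟩ := Pool.Agent.W401.Frob.exists_frob v
  rw [← ZMod.intCast_zmod_eq_zero_iff_dvd, ← hval v hv x hx]
  exact hall x

/-- from upper densities to lower densities of the complement -/
theorem lower_of_not_ugt {S : Set (HeightOneSpectrum (𝓞 K))} {c : ℝ} (h : ¬ UGT S c) {c' : ℝ}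
    (hc' : c' < 1 - c) : ∃ M : ℕ, ∀ N ≥ M,
      c' * ({v : HeightOneSpectrum (𝓞 K) | Ideal.absNorm v.asIdeal ≤ N}.ncard : ℝ) ≤
      ({v : HeightOneSpectrum (𝓞 K) | v ∉ S ∧ Ideal.absNorm v.asIdeal ≤ N}.ncard : ℝ) := by
  unfold UGT at h
  push Not at h
  obtain ⟨M, hM⟩ := h (1 - c') (by linarith)
  refine ⟨M, fun N hN => ?_⟩
  have h1 := hM N hN
  have hfin := finite_absNorm (K := K) N
  have h2 : ({v : HeightOneSpectrum (𝓞 K) | v ∈ S ∧ Ideal.absNorm v.asIdeal ≤ N}.ncard : ℝ) +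
      ({v : HeightOneSpectrum (𝓞 K) | v ∉ S ∧ Ideal.absNorm v.asIdeal ≤ N}.ncard : ℝ) =
      ({v : HeightOneSpectrum (𝓞 K) | Ideal.absNorm v.asIdeal ≤ N}.ncard : ℝ) := by
    have h3 : {v : HeightOneSpectrum (𝓞 K) | Ideal.absNorm v.asIdeal ≤ N} =
        {v : HeightOneSpectrum (𝓞 K) | v ∈ S ∧ Ideal.absNorm v.asIdeal ≤ N} ∪
        {v : HeightOneSpectrum (𝓞 K) | v ∉ S ∧ Ideal.absNorm v.asIdeal ≤ N} := by
      ext v
      constructor
      · intro hv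
        by_cases hvS : v ∈ S
        · exact Or.inl ⟨hvS, hv⟩
        · exact Or.inr ⟨hvS, hv⟩
      · rintro (hv | hv)
        · exact hv.2
        · exact hv.2
    have h4 : Disjoint {v : HeightOneSpectrum (𝓞 K) | v ∈ S ∧ Ideal.absNorm v.asIdeal ≤ N}
        {v : HeightOneSpectrum (𝓞 K) | v ∉ S ∧ Ideal.absNorm v.asIdeal ≤ N} := by
      rw [Set.disjoint_left]
      intro v hv hv'
      exact hv'.1 hv.1
    have h5 := Set.ncard_union_eq h4 (hfin.subset (fun v hv => hv.2)) (hfin.subset (fun v hv => hv.2))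
    rw [← h3] at h5
    exact_mod_cast h5.symm
  nlinarith

end Pool.Agent.H502.TZ
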